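import Pool.Agent.N906.KG.Def
import Pool.Agent.N906.EQ.Hgt
import Pool.Agent.R365.QP.Ht
import Pool.Agent.N906.NT.Lim

/-!
# KG/FING: the final theorem for grids
-/

set_option autoImplicit false
set_option linter.unusedSectionVars false

namespace Pool.Agent.N170.KG

open NumberField IsDedekindDomain Finset Filter Topology Module
open Pool.Agent.H691R3 Pool.Agent.W223.AK Pool.Agent.N906.KG
open Pool.Agent.N906.NT (Gs Gs_pos Gs_mono log_small Gs_tendsto squeeze)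

/-! ### Points -/

section points

variable {K : Type} [Field K] [NumberField K] {q r : ℕ}

/-- the pairs of coordinates -/
def pr (α : Fin q → Fin 2 → K) (l : Fin q) : K × K := (α l 0, α l 1)

lemma al_pr {α : Fin q → Fin 2 → K} (h0 : ∀ i, α i ≠ 0)
    (h : ∀ i j, i ≠ j → α i 0 * α j 1 - α i 1 * α j 0 ≠ 0) : Al (pr α) :=
  ⟨fun l => Pool.Agent.R365.QP.pr_ne (h0 l), h⟩

lemma rep_eq_of {P P' : Projectivization K (Fin 2 → K)} (h : P.rep 1 ≠ 0) (h' : P'.rep 1 ≠ 0)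
    (e : P.rep 0 / P.rep 1 = P'.rep 0 / P'.rep 1) : P = P' := by
  rw [← P.mk_rep, ← P'.mk_rep]
  refine (Projectivization.mk_eq_mk_iff' K _ _ _ _).2 ⟨P.rep 1 / P'.rep 1, ?_⟩
  funext i
  fin_cases i
  · show P.rep 1 / P'.rep 1 * P'.rep 0 = P.rep 0
    have h1 : P.rep 0 = P.rep 1 * (P'.rep 0 / P'.rep 1) := by
      rw [← e, mul_div_cancel₀ _ h]
    rw [h1]
    ring
  · show P.rep 1 / P'.rep 1 * P'.rep 1 = P.rep 1
    rw [div_mul_cancel₀ _ h']

lemma rep_inf {P P' : Projectivization K (Fin 2 → K)} (h : P.rep 1 = 0) (h' : P'.rep 1 = 0) :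
    P = P' := by
  have h0 : P.rep 0 ≠ 0 := by
    intro h1
    apply P.rep_nonzero
    funext i
    fin_cases i
    · exact h1
    · exact h
  have h0' : P'.rep 0 ≠ 0 := by
    intro h1
    apply P'.rep_nonzero
    funext i
    fin_cases i
    · exact h1
    · exact h'
  rw [← P.mk_rep, ← P'.mk_rep]
  refine (Projectivization.mk_eq_mk_iff' K _ _ _ _).2 ⟨P.rep 0 / P'.rep 0, ?_⟩
  funext i
  fin_cases i
  · show P.rep 0 / P'.rep 0 * P'.rep 0 = P.rep 0
    rw [div_mul_cancel₀ _ h0']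
  · show P.rep 0 / P'.rep 0 * P'.rep 1 = P.rep 1
    rw [h, h', mul_zero]

lemma ht_rep (x : Fin 2 → K) : Height.logHeight x = hr (aff (x 0 / x 1)) := by
  rw [Pool.Agent.R365.QP.hr_aff_div]
  congr 1
  funext i
  fin_cases i <;> rfl

lemma of_rep {α : Fin q → Fin 2 → K} {P : Projectivization K (Fin 2 → K)} (h : P.rep 1 ≠ 0)
    (hx : Off1 α P) : Of (pr α) (P.rep 0 / P.rep 1) := by
  intro l h2
  apply hx l
  have h2' : P.rep 0 / P.rep 1 * α l 1 - α l 0 = 0 := h2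
  have h3 : P.rep 0 = P.rep 1 * (P.rep 0 / P.rep 1) := (mul_div_cancel₀ _ h).symm
  linear_combination h3 * α l 1 + P.rep 1 * h2'

lemma off_of {α : Fin q → Fin 2 → K} {P : Projectivization K (Fin 2 → K)} (h : P.rep 1 ≠ 0)
    (hx : Of (pr α) (P.rep 0 / P.rep 1)) : Off1 α P := by
  intro l h2
  apply hx l
  show P.rep 0 / P.rep 1 * α l 1 - α l 0 = 0
  field_simp
  linear_combination h2

/-- the point of the line with the affine coordinate `x` -/
noncomputable def pt (x : K) : Projectivization K (Fin 2 → K) :=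
  Projectivization.mk K ![x, 1] (fun h => one_ne_zero (congrFun h 1))

lemma pt_rep (x : K) : (pt x).rep 1 ≠ 0 ∧ (pt x).rep 0 / (pt x).rep 1 = x := by
  obtain ⟨a, ha⟩ := Projectivization.exists_smul_eq_mk_rep K ![x, 1]
    (fun h => one_ne_zero (congrFun h 1))
  have h1 : (pt x).rep = (a : K) • ![x, 1] := ha.symm
  have h2 : (pt x).rep 1 = a := by
    rw [h1]
    show (a : K) * 1 = a
    rw [mul_one]
  have h3 : (pt x).rep 0 = a * x := by
    rw [h1]
    rfl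
  have ha0 : (a : K) ≠ 0 := a.ne_zero
  refine ⟨by rw [h2]; exact ha0, ?_⟩
  rw [h2, h3, mul_comm, mul_div_assoc, div_self ha0, mul_one]

lemma pt_inj : Function.Injective (pt : K → Projectivization K (Fin 2 → K)) := by
  intro x y h
  rw [← (pt_rep x).2, ← (pt_rep y).2, h]

/-! ### The counting function -/

lemma fin_pos : (0 : ℝ) < finrank ℚ K := by
  exact_mod_cast (finrank_pos (R := ℚ) (M := K))

lemma lv_eq (v : HeightOneSpectrum (𝓞 K)) (a : Fin 2 → K) {P : Projectivization K (Fin 2 → K)}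
    (h : P.rep 1 ≠ 0) :
    lv v a P * finrank ℚ K = lam (Sum.inr v : Pl K) (aff (P.rep 0 / P.rep 1)) (a 0, a 1) := by
  unfold lv
  rw [div_mul_cancel₀ _ (fin_pos (K := K)).ne']
  show _ = lamA (fv v) (aff (P.rep 0 / P.rep 1)) (a 0, a 1)
  unfold lamA aff
  show Real.log (max (fv v (P.rep 0)) (fv v (P.rep 1)) * max (fv v (a 0)) (fv v (a 1)) /
    fv v (P.rep 0 * a 1 - P.rep 1 * a 0)) = _
  congr 1
  have hv : fv v (P.rep 1) ≠ 0 := (fv v).ne_zero h
  have hv0 : 0 < fv v (P.rep 1) := (fv v).pos h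
  have e1 : max (fv v (P.rep 0)) (fv v (P.rep 1)) =
      fv v (P.rep 1) * max (fv v (P.rep 0 / P.rep 1)) (fv v 1) := by
    rw [mul_max_of_nonneg _ _ hv0.le, ← map_mul, ← map_mul, mul_div_cancel₀ _ h, mul_one]
  have e2 : P.rep 0 * a 1 - P.rep 1 * a 0 = P.rep 1 * (P.rep 0 / P.rep 1 * a 1 - 1 * a 0) := by
    field_simp
  rw [e1, e2, map_mul, mul_assoc, mul_div_mul_left _ _ hv]

variable {S : Finset (Pr K)}

lemma mem_sp {n : ℕ} (D : Fin n → Idl K) (v : Pr K) : v ∈ sp D ↔ ∃ i, D i v ≠ 0 := by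
  classical
  unfold sp
  simp only [mem_biUnion, mem_univ, true_and, Finsupp.mem_support_iff]

lemma notMem_sp {n : ℕ} (D : Fin n → Idl K) (v : Pr K) : v ∉ sp D ↔ ∑ i, D i v = 0 := by
  rw [mem_sp, Finset.sum_eq_zero_iff]
  push Not
  simp

lemma sum_ap (A : Fin q → Idl K) (B : Fin r → Idl K) (v : Pr K) :
    ∑ i, ap A B i v = ∑ i, A i v + ∑ j, B j v := by
  unfold ap
  rw [Fin.sum_univ_add]
  simp only [Fin.append_left, Fin.append_right]

/-- the counting function and the radical -/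
theorem cnt_bounds {α : Fin q → Fin 2 → K} {β : Fin r → Fin 2 → K}
    (hα : ∀ i, α i ≠ 0) (hβ : ∀ j, β j ≠ 0)
    {P Q : Projectivization K (Fin 2 → K)} (hP : P.rep 1 ≠ 0) (hQ : Q.rep 1 ≠ 0)
    (hoP : Off1 α P) (hoQ : Off1 β Q) {A : Fin q → Idl K} {B : Fin r → Idl K}
    (hA : IsP S (pr α) (P.rep 0 / P.rep 1) A) (hB : IsP S (pr β) (Q.rep 0 / Q.rep 1) B) :
    tr (ap A B) ≤ finrank ℚ K * cnt1 α β P Q ∧
      finrank ℚ K * cnt1 α β P Q ≤ tr (ap A B) + ∑ v ∈ S, Real.log (Nv v) := by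
  classical
  have hd : (0 : ℝ) < finrank ℚ K := fin_pos
  set m : Pr K → ℝ := fun v => min (Real.log (Ideal.absNorm v.asIdeal : ℝ) / (finrank ℚ K : ℝ))
    (∑ i, lv v (α i) P + ∑ j, lv v (β j) Q) with hm
  have hmd : ∀ v, finrank ℚ K * m v = min (Real.log (Nv v))
      (∑ i, lam (Sum.inr v : Pl K) (aff (P.rep 0 / P.rep 1)) (pr α i) +
        ∑ j, lam (Sum.inr v : Pl K) (aff (Q.rep 0 / Q.rep 1)) (pr β j)) := by
    intro v
    rw [hm, mul_min_of_nonneg _ _ hd.le, mul_div_cancel₀ _ hd.ne', mul_add, mul_sum, mul_sum]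
    congr 2
    · refine sum_congr rfl fun i _ => ?_
      rw [mul_comm, lv_eq v _ hP]
      rfl
    · refine sum_congr rfl fun i _ => ?_
      rw [mul_comm, lv_eq v _ hQ]
      rfl
  have hout : ∀ v, v ∉ S → finrank ℚ K * m v = if v ∈ sp (ap A B) then Real.log (Nv v) else 0 := by
    intro v hv
    rw [hmd, sum_congr rfl fun i _ => hA.2 i v hv, sum_congr rfl fun j _ => hB.2 j v hv,
      ← sum_mul, ← sum_mul, ← add_mul, ← Nat.cast_sum, ← Nat.cast_sum, ← Nat.cast_add, ← sum_ap]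
    have hl := log_Nv_pos v
    split_ifs with h
    · have h1 : 1 ≤ ∑ i, ap A B i v := by
        rw [Nat.one_le_iff_ne_zero]
        intro h2
        exact (notMem_sp _ _).2 h2 h
      have h2 : (1 : ℝ) ≤ ((∑ i, ap A B i v : ℕ) : ℝ) := by exact_mod_cast h1
      exact min_eq_left (by nlinarith)
    · rw [(notMem_sp _ _).1 h, Nat.cast_zero, zero_mul]
      exact min_eq_right hl.le
  have hin : ∀ v, 0 ≤ finrank ℚ K * m v ∧ finrank ℚ K * m v ≤ Real.log (Nv v) := by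
    intro v
    rw [hmd]
    refine ⟨le_min (log_Nv_pos v).le (add_nonneg ?_ ?_), min_le_left _ _⟩
    · refine sum_nonneg fun i _ => ?_
      refine lamF_nonneg v (aff_ne_zero _) (Pool.Agent.R365.QP.pr_ne (hα i)) ?_
      have := of_rep hP hoP i
      show P.rep 0 / P.rep 1 * α i 1 - 1 * α i 0 ≠ 0
      rw [one_mul]
      exact this
    · refine sum_nonneg fun i _ => ?_
      refine lamF_nonneg v (aff_ne_zero _) (Pool.Agent.R365.QP.pr_ne (hβ i)) ?_
      have := of_rep hQ hoQ i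
      show Q.rep 0 / Q.rep 1 * β i 1 - 1 * β i 0 ≠ 0
      rw [one_mul]
      exact this
  have hdis : Disjoint (sp (ap A B)) S := by
    rw [Finset.disjoint_left]
    intro v hv hvS
    refine (notMem_sp (ap A B) v).2 ?_ hv
    rw [sum_ap, sum_eq_zero fun i _ => hA.1 i v hvS, sum_eq_zero fun i _ => hB.1 i v hvS, add_zero]
  have hsupp : Function.support m ⊆ ((sp (ap A B) ∪ S : Finset (Pr K)) : Set (Pr K)) := by
    intro v hv
    rw [coe_union]
    by_contra hcon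
    rw [Set.mem_union, not_or] at hcon
    have h1 := hout v hcon.2
    rw [if_neg (fun h => hcon.1 (mem_coe.2 h))] at h1
    exact hv ((mul_eq_zero.1 h1).resolve_left hd.ne')
  have hsum : (finrank ℚ K : ℝ) * cnt1 α β P Q = tr (ap A B) + ∑ v ∈ S, finrank ℚ K * m v := by
    have h1 : cnt1 α β P Q = ∑ v ∈ sp (ap A B) ∪ S, m v :=
      finsum_eq_sum_of_support_subset _ hsupp
    rw [h1, mul_sum, sum_union hdis]
    congr 1
    unfold tr
    refine sum_congr rfl fun v hv => ?_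
    rw [hout v (Finset.disjoint_left.1 hdis hv), if_pos hv]
  rw [hsum]
  constructor
  · have : 0 ≤ ∑ v ∈ S, finrank ℚ K * m v := sum_nonneg fun v _ => (hin v).1
    linarith
  · have : ∑ v ∈ S, finrank ℚ K * m v ≤ ∑ v ∈ S, Real.log (Nv v) :=
      sum_le_sum fun v _ => (hin v).2
    linarith

/-! ### The number of the points -/

variable (K) in
/-- the points of bounded height -/
def pts (X : ℝ) : Set (Projectivization K (Fin 2 → K)) := {P | Height.logHeight P.rep ≤ X}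

variable (K) in
theorem pts_count : ∃ C : ℝ, 0 < C ∧ ∀ X : ℝ, 0 ≤ X →
    (pts K X).Finite ∧ ((pts K X).ncard : ℝ) ≤ C * Real.exp (2 * X) := by
  obtain ⟨C, hC, h⟩ := Pool.Agent.N906.EQ.count_le K 2
  refine ⟨C, hC, fun X hX => ?_⟩
  have hd : (0 : ℝ) < finrank ℚ K := fin_pos
  have h1 := h (Real.exp (X / finrank ℚ K)) (Real.one_le_exp (by positivity))
  have h2 : {P : Projectivization K (Fin 2 → K) | Height.mulHeight P.rep ≤
      Real.exp (X / finrank ℚ K) ^ (finrank ℚ K)} = pts K X := by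
    ext P
    show Height.mulHeight P.rep ≤ _ ↔ Height.logHeight P.rep ≤ X
    rw [Height.logHeight_eq_log_mulHeight, ← Real.exp_nat_mul, mul_div_cancel₀ _ hd.ne',
      Real.log_le_iff_le_exp (Height.mulHeight_pos _)]
  rw [h2] at h1
  refine ⟨h1.1, h1.2.trans (le_of_eq ?_)⟩
  congr 1
  rw [← Real.exp_nat_mul]
  congr 1
  push_cast
  field_simp

variable (K) in
theorem pts_finite (X : ℝ) : (pts K X).Finite := by
  obtain ⟨C, -, h⟩ := pts_count K
  exact (h (max X 0) (le_max_right _ _)).1.subset fun P hP =>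
    show Height.logHeight P.rep ≤ max X 0 from le_trans hP (le_max_left _ _)

lemma exp_hh {P : Projectivization K (Fin 2 → K)} {L : ℝ} :
    Real.exp (hh P) ≤ Real.exp L ↔ Height.logHeight P.rep ≤ finrank ℚ K * L := by
  unfold hh
  rw [Real.exp_le_exp, div_le_iff₀ (fin_pos (K := K)), mul_comm]

lemma GV_sub {α : Fin q → Fin 2 → K} {β : Fin r → Fin 2 → K} {G : MvPolynomial (Fin 4) K}
    {κ c L : ℝ} : GV α β G κ c (Real.exp L) ⊆
      pts K (finrank ℚ K * L) ×ˢ pts K (finrank ℚ K * L) := by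
  rintro p ⟨-, -, -, h1, h2, -⟩
  exact ⟨exp_hh.1 h1, exp_hh.1 h2⟩

lemma GV_finite (α : Fin q → Fin 2 → K) (β : Fin r → Fin 2 → K) (G : MvPolynomial (Fin 4) K)
    (κ c B : ℝ) : (GV α β G κ c B).Finite := by
  rcases le_or_gt B 0 with hB | hB
  · refine Set.Finite.subset Set.finite_empty ?_
    rintro p ⟨-, -, -, h1, -, -⟩
    exact absurd (Real.exp_pos (hh p.1)) (not_lt.2 (h1.trans hB))
  · rw [← Real.exp_log hB]
    exact ((pts_finite K _).prod (pts_finite K _)).subset GV_sub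

/-! ### The two bounds -/

theorem upper (h1 : S_BASQ K) (h2 : S_UPG K) (hq : 1 ≤ q) (hr' : 1 ≤ r)
    {α : Fin q → Fin 2 → K} {β : Fin r → Fin 2 → K} (G : MvPolynomial (Fin 4) K) {κ : ℝ} (c : ℝ)
    (hα0 : ∀ i, α i ≠ 0) (hβ0 : ∀ j, β j ≠ 0)
    (hα : ∀ i j, i ≠ j → α i 0 * α j 1 - α i 1 * α j 0 ≠ 0)
    (hβ : ∀ i j, i ≠ j → β i 0 * β j 1 - β i 1 * β j 0 ≠ 0) (hκ0 : 0 < κ) (hκ1 : κ < 1 / 3)
    {ε : ℝ} (hε : 0 < ε) :
    ∃ C X₀ : ℝ, 0 < C ∧ 1 < X₀ ∧ ∀ L : ℝ, X₀ ≤ (finrank ℚ K : ℝ) * L →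
      ((GV α β G κ c (Real.exp L)).ncard : ℝ) ≤
        Real.exp ((4 - 2 * κ) * (finrank ℚ K * L) + (1 + ε) * Pool.Agent.N906.NT.cst 2 (q * r) *
          (2 * κ * (finrank ℚ K * L) / Real.log (finrank ℚ K * L)) ^ ((2 : ℝ) / 3)) +
        C * Real.exp (2 * (finrank ℚ K * L)) := by
  classical
  have hd : (0 : ℝ) < finrank ℚ K := fin_pos
  have hA := al_pr hα0 hα
  have hB := al_pr hβ0 hβ
  obtain ⟨⟨S₁, hS₁⟩, hA2⟩ := h1 q (pr α) hq hA
  obtain ⟨⟨S₂, hS₂⟩, hB2⟩ := h1 r (pr β) hr' hB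
  have hGα := hS₁ (S₁ ∪ S₂) subset_union_left
  have hGβ := hS₂ (S₁ ∪ S₂) subset_union_right
  obtain ⟨C₁, -, hA3⟩ := hA2 _ hGα
  obtain ⟨C₂, -, hB3⟩ := hB2 _ hGβ
  obtain ⟨X₀, hX₀, hup⟩ := h2 q r (pr α) (pr β) (S₁ ∪ S₂) κ ε (finrank ℚ K * |c|) hq hr' hA hB
    hGα hGβ hκ0 hκ1 hε (by positivity)
  obtain ⟨C, hC, hpts⟩ := pts_count K
  refine ⟨2 * C, X₀, by positivity, hX₀, fun L hL => ?_⟩
  set X : ℝ := finrank ℚ K * L with hX
  have hX0 : 0 ≤ X := by linarith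
  have hfin := GV_finite α β G κ c (Real.exp L)
  obtain ⟨T, hT⟩ : ∃ T : Finset (Projectivization K (Fin 2 → K) × Projectivization K (Fin 2 → K)),
    T = hfin.toFinset := ⟨_, rfl⟩
  have hTm : ∀ p, p ∈ T ↔ p ∈ GV α β G κ c (Real.exp L) := fun p => by
    rw [hT, Set.Finite.mem_toFinset]
  have hcard : (GV α β G κ c (Real.exp L)).ncard = T.card := by
    rw [hT, Set.ncard_eq_toFinset_card _ hfin]
  rw [hcard]
  have hTh : ∀ p ∈ T, p.1 ∈ pts K X ∧ p.2 ∈ pts K X := fun p hp => GV_sub ((hTm p).1 hp)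
  set T₁ := T.filter (fun p => p.1.rep 1 ≠ 0 ∧ p.2.rep 1 ≠ 0) with hT₁
  set T₂ := T.filter (fun p => p.1.rep 1 = 0) with hT₂
  set T₃ := T.filter (fun p => p.2.rep 1 = 0) with hT₃
  have hsplit : T.card ≤ T₁.card + (T₂.card + T₃.card) := by
    have h : T ⊆ T₁ ∪ (T₂ ∪ T₃) := by
      intro p hp
      rw [mem_union, mem_union, hT₁, hT₂, hT₃, mem_filter, mem_filter, mem_filter]
      by_cases g1 : p.1.rep 1 = 0
      · exact Or.inr (Or.inl ⟨hp, g1⟩)
      · by_cases g2 : p.2.rep 1 = 0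
        · exact Or.inr (Or.inr ⟨hp, g2⟩)
        · exact Or.inl ⟨hp, g1, g2⟩
    exact (card_le_card h).trans ((card_union_le _ _).trans
      (Nat.add_le_add_left (card_union_le _ _) _))
  have hc2 : (T₂.card : ℝ) ≤ C * Real.exp (2 * X) := by
    refine le_trans ?_ (hpts X hX0).2
    have h : T₂.card ≤ (pts K X).ncard := by
      rw [← card_image_of_injOn (s := T₂) (f := Prod.snd), ← Set.ncard_coe_finset]
      · refine Set.ncard_le_ncard ?_ (pts_finite K X)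
        intro Q hQ
        obtain ⟨p, hp, rfl⟩ := mem_image.1 (mem_coe.1 hQ)
        exact (hTh p (mem_filter.1 hp).1).2
      · intro p hp p' hp' e
        exact Prod.ext (rep_inf (mem_filter.1 (mem_coe.1 hp)).2
          (mem_filter.1 (mem_coe.1 hp')).2) e
    exact_mod_cast h
  have hc3 : (T₃.card : ℝ) ≤ C * Real.exp (2 * X) := by
    refine le_trans ?_ (hpts X hX0).2
    have h : T₃.card ≤ (pts K X).ncard := by
      rw [← card_image_of_injOn (s := T₃) (f := Prod.fst), ← Set.ncard_coe_finset]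
      · refine Set.ncard_le_ncard ?_ (pts_finite K X)
        intro Q hQ
        obtain ⟨p, hp, rfl⟩ := mem_image.1 (mem_coe.1 hQ)
        exact (hTh p (mem_filter.1 hp).1).1
      · intro p hp p' hp' e
        exact Prod.ext e (rep_inf (mem_filter.1 (mem_coe.1 hp)).2
          (mem_filter.1 (mem_coe.1 hp')).2)
    exact_mod_cast h
  have hc1 : (T₁.card : ℝ) ≤ Real.exp ((4 - 2 * κ) * X + (1 + ε) * Pool.Agent.N906.NT.cst 2 (q * r) *
      (2 * κ * X / Real.log X) ^ ((2 : ℝ) / 3)) := by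
    rw [← card_image_of_injOn (s := T₁)
      (f := fun p => (p.1.rep 0 / p.1.rep 1, p.2.rep 0 / p.2.rep 1))]
    · refine hup X _ hL ?_
      intro x hx
      obtain ⟨p, hp, rfl⟩ := mem_image.1 hx
      obtain ⟨g0, g1, g2⟩ := mem_filter.1 hp
      obtain ⟨k1, k2⟩ := hTh p g0
      obtain ⟨m1, m2, -, -, -, m3⟩ := (hTm p).1 g0
      have o1 := of_rep g1 m1
      have o2 := of_rep g2 m2
      obtain ⟨P, hP⟩ := (hA3 _ o1).1
      obtain ⟨Q, hQ⟩ := (hB3 _ o2).1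
      refine ⟨o1, o2, ?_, ?_, P, Q, hP, hQ, ?_⟩
      · rw [← ht_rep]
        exact k1
      · rw [← ht_rep]
        exact k2
      · refine (cnt_bounds hα0 hβ0 g1 g2 m1 m2 hP hQ).1.trans ?_
        rw [← ht_rep, ← ht_rep]
        have m4 := mul_le_mul_of_nonneg_left m3 hd.le
        refine m4.trans ?_
        unfold hh
        have e1 : (finrank ℚ K : ℝ) * (((q : ℝ) - κ) * (Height.logHeight p.1.rep / finrank ℚ K) +
            ((r : ℝ) - κ) * (Height.logHeight p.2.rep / finrank ℚ K) + c) =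
            ((q : ℝ) - κ) * Height.logHeight p.1.rep + ((r : ℝ) - κ) * Height.logHeight p.2.rep +
              finrank ℚ K * c := by
          field_simp
        rw [e1]
        have := mul_le_mul_of_nonneg_left (le_abs_self c) hd.le
        linarith
    · intro p hp p' hp' e
      obtain ⟨-, g1, g2⟩ := mem_filter.1 (mem_coe.1 hp)
      obtain ⟨-, g3, g4⟩ := mem_filter.1 (mem_coe.1 hp')
      have e1 := congrArg Prod.fst e
      have e2 := congrArg Prod.snd e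
      exact Prod.ext (rep_eq_of g1 g3 e1) (rep_eq_of g2 g4 e2)
  have hs : (T.card : ℝ) ≤ T₁.card + (T₂.card + T₃.card) := by exact_mod_cast hsplit
  linarith

theorem lower (h1 : S_BASQ K) (h3 : S_LOG K) (h4 : S_ZARG K) (hq : 1 ≤ q) (hr' : 1 ≤ r)
    {α : Fin q → Fin 2 → K} {β : Fin r → Fin 2 → K} {G : MvPolynomial (Fin 4) K} {κ : ℝ} (c : ℝ)
    (hα0 : ∀ i, α i ≠ 0) (hβ0 : ∀ j, β j ≠ 0)
    (hα : ∀ i j, i ≠ j → α i 0 * α j 1 - α i 1 * α j 0 ≠ 0)
    (hβ : ∀ i j, i ≠ j → β i 0 * β j 1 - β i 1 * β j 0 ≠ 0) (hG0 : G ≠ 0) (hG : Bih G)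
    (hκ0 : 0 < κ) (hκ1 : κ < 1 / 3) {ε : ℝ} (hε : 0 < ε) (hε1 : ε < 1) :
    ∃ C X₀ : ℝ, 0 < C ∧ 1 < X₀ ∧ ∀ L : ℝ, X₀ ≤ (finrank ℚ K : ℝ) * L →
      Real.exp ((4 - 2 * κ) * (finrank ℚ K * L) + (1 - ε) * Pool.Agent.N906.NT.cst 2 (q * r) *
          (2 * κ * (finrank ℚ K * L) / Real.log (finrank ℚ K * L)) ^ ((2 : ℝ) / 3)) ≤
        ((GV α β G κ c (Real.exp L)).ncard : ℝ) + C * Real.exp (2 * (finrank ℚ K * L)) := by
  classical
  have hd : (0 : ℝ) < finrank ℚ K := fin_pos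
  have hA := al_pr hα0 hα
  have hB := al_pr hβ0 hβ
  obtain ⟨⟨S₁, hS₁⟩, hA2⟩ := h1 q (pr α) hq hA
  obtain ⟨⟨S₂, hS₂⟩, hB2⟩ := h1 r (pr β) hr' hB
  have hGα := hS₁ (S₁ ∪ S₂) subset_union_left
  have hGβ := hS₂ (S₁ ∪ S₂) subset_union_right
  have hC₀ : 0 ≤ ∑ v ∈ S₁ ∪ S₂, Real.log (Nv v) + finrank ℚ K * |c| :=
    add_nonneg (sum_nonneg fun v _ => (log_Nv_pos v).le) (by positivity)
  obtain ⟨X₀, hX₀, hlo⟩ := h3 q r (pr α) (pr β) (S₁ ∪ S₂) κ ε
    (∑ v ∈ S₁ ∪ S₂, Real.log (Nv v) + finrank ℚ K * |c|) hq hr' hA hB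
    hGα hGβ hκ0 hκ1 hε hε1 hC₀
  obtain ⟨C, hC, hZ⟩ := h4 G hG0 hG
  refine ⟨C, X₀, hC, hX₀, fun L hL => ?_⟩
  set X : ℝ := finrank ℚ K * L with hX
  have hX0 : 0 ≤ X := by linarith
  obtain ⟨F, hF, hcard⟩ := hlo X hL
  refine hcard.trans ?_
  obtain ⟨hZf, hZc⟩ := hZ X hX0
  have hfin := GV_finite α β G κ c (Real.exp L)
  have hinj : Function.Injective (fun p : K × K => (pt p.1, pt p.2)) := by
    intro p p' e
    exact Prod.ext (pt_inj (congrArg Prod.fst e)) (pt_inj (congrArg Prod.snd e))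
  have hsub : ((F.image fun p : K × K => (pt p.1, pt p.2) : Finset _) : Set _) ⊆
      GV α β G κ c (Real.exp L) ∪
        {p : Projectivization K (Fin 2 → K) × Projectivization K (Fin 2 → K) |
          Height.logHeight p.1.rep ≤ X ∧ Height.logHeight p.2.rep ≤ X ∧ ev4 G p.1 p.2 = 0} := by
    intro P hP
    obtain ⟨p, hp, rfl⟩ := mem_image.1 (mem_coe.1 hP)
    obtain ⟨o1, o2, k1, k2, P, Q, hPP, hQQ, htr⟩ := hF p hp
    obtain ⟨n1, e1⟩ := pt_rep p.1
    obtain ⟨n2, e2⟩ := pt_rep p.2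
    have l1 : Height.logHeight (pt p.1).rep = hr (aff p.1) := by rw [ht_rep, e1]
    have l2 : Height.logHeight (pt p.2).rep = hr (aff p.2) := by rw [ht_rep, e2]
    have f1 : Off1 α (pt p.1) := off_of n1 (by rw [e1]; exact o1)
    have f2 : Off1 β (pt p.2) := off_of n2 (by rw [e2]; exact o2)
    by_cases hg : ev4 G (pt p.1) (pt p.2) = 0
    · exact Or.inr ⟨by rw [l1]; exact k1, by rw [l2]; exact k2, hg⟩
    · refine Or.inl ⟨f1, f2, hg, exp_hh.2 (by rw [l1]; exact k1), exp_hh.2 (by rw [l2]; exact k2),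
        ?_⟩
      have h5 := (cnt_bounds (S := S₁ ∪ S₂) hα0 hβ0 n1 n2 f1 f2 (by rw [e1]; exact hPP)
        (by rw [e2]; exact hQQ)).2
      have h6 : (finrank ℚ K : ℝ) * cnt1 α β (pt p.1) (pt p.2) ≤
          finrank ℚ K * (((q : ℝ) - κ) * hh (pt p.1) + ((r : ℝ) - κ) * hh (pt p.2) + c) := by
        unfold hh
        rw [l1, l2]
        have e3 : (finrank ℚ K : ℝ) * (((q : ℝ) - κ) * (hr (aff p.1) / finrank ℚ K) +
            ((r : ℝ) - κ) * (hr (aff p.2) / finrank ℚ K) + c) =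
            ((q : ℝ) - κ) * hr (aff p.1) + ((r : ℝ) - κ) * hr (aff p.2) +
              finrank ℚ K * c := by
          field_simp
        rw [e3]
        have := mul_le_mul_of_nonneg_left (neg_abs_le c) hd.le
        linarith
      exact le_of_mul_le_mul_left h6 hd
  have h5 := Set.ncard_le_ncard hsub (hfin.union hZf)
  have h6 := Set.ncard_union_le (GV α β G κ c (Real.exp L))
    {p : Projectivization K (Fin 2 → K) × Projectivization K (Fin 2 → K) |
          Height.logHeight p.1.rep ≤ X ∧ Height.logHeight p.2.rep ≤ X ∧ ev4 G p.1 p.2 = 0}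
  rw [Set.ncard_coe_finset, card_image_of_injective _ hinj] at h5
  have h7 : (F.card : ℝ) ≤ ((GV α β G κ c (Real.exp L)).ncard : ℝ) +
    ({p : Projectivization K (Fin 2 → K) × Projectivization K (Fin 2 → K) |
          Height.logHeight p.1.rep ≤ X ∧ Height.logHeight p.2.rep ≤ X ∧
            ev4 G p.1 p.2 = 0}.ncard : ℝ) := by exact_mod_cast h5.trans h6
  linarith

end points

/-! ### The limit -/

theorem log_ratio {d : ℝ} (hd : 0 < d) :
    Tendsto (fun L : ℝ => Real.log L / Real.log (d * L)) atTop (𝓝 1) := by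
  have h1 : Tendsto (fun L : ℝ => Real.log d / Real.log L) atTop (𝓝 0) :=
    tendsto_const_nhds.div_atTop Real.tendsto_log_atTop
  have h2 : Tendsto (fun L : ℝ => (Real.log d / Real.log L + 1)⁻¹) atTop (𝓝 ((0 + 1 : ℝ)⁻¹)) :=
    (h1.add_const 1).inv₀ (by norm_num)
  rw [zero_add, inv_one] at h2
  refine h2.congr' ?_
  filter_upwards [eventually_gt_atTop (1 : ℝ)] with L hL
  have hl : 0 < Real.log L := Real.log_pos hL
  rw [Real.log_mul hd.ne' (by linarith), div_add_one hl.ne', inv_div]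

theorem ratio {k d ρ : ℝ} (hk : 0 < k) (hd : 0 < d) (hρ : 0 < ρ) :
    Tendsto (fun L : ℝ => (k * (d * L) / Real.log (d * L)) ^ ρ / Gs ρ L) atTop
      (𝓝 ((k * d) ^ ρ)) := by
  have h1 : Tendsto (fun L : ℝ => (k * d * (Real.log L / Real.log (d * L))) ^ ρ) atTop
      (𝓝 ((k * d * 1) ^ ρ)) :=
    ((log_ratio hd).const_mul (k * d)).rpow_const (Or.inr hρ.le)
  rw [mul_one] at h1
  refine h1.congr' ?_
  have h2 : ∀ᶠ L : ℝ in atTop, 1 < d * L :=
    (tendsto_id.const_mul_atTop hd).eventually_gt_atTop 1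
  filter_upwards [eventually_gt_atTop (1 : ℝ), h2] with L hL hL2
  have hL0 : 0 < L := by linarith
  have hl : 0 < Real.log L := Real.log_pos hL
  have hl2 : 0 < Real.log (d * L) := Real.log_pos hL2
  unfold Gs
  rw [← Real.div_rpow (by positivity) (by positivity)]
  congr 1
  field_simp

theorem small_exp {a b C : ℝ} (hab : a < b) :
    ∀ᶠ L : ℝ in atTop, C * Real.exp (a * L) ≤ Real.exp (b * L) / 2 := by
  have h1 : Tendsto (fun L : ℝ => Real.exp ((b - a) * L)) atTop atTop :=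
    Real.tendsto_exp_atTop.comp (tendsto_id.const_mul_atTop (by linarith))
  filter_upwards [h1.eventually_ge_atTop (2 * C)] with L hL
  have h2 : Real.exp (b * L) = Real.exp ((b - a) * L) * Real.exp (a * L) := by
    rw [← Real.exp_add]
    congr 1
    ring
  rw [h2]
  have := Real.exp_pos (a * L)
  nlinarith

theorem exp_mul_two (x : ℝ) : Real.exp x * 2 = Real.exp (x + Real.log 2) := by
  rw [Real.exp_add, Real.exp_log two_pos]

theorem final_limit {κ d c₁ : ℝ} (hc₁ : 0 ≤ c₁) (hd : 0 < d) (hκ0 : 0 < κ) (hκ1 : κ < 1 / 3)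
    (N : ℝ → ℝ)
    (hU : ∀ ε : ℝ, 0 < ε → ∃ C X₀ : ℝ, 0 < C ∧ 1 < X₀ ∧ ∀ L : ℝ, X₀ ≤ d * L →
      N L ≤ Real.exp ((4 - 2 * κ) * (d * L) + (1 + ε) * c₁ *
        (2 * κ * (d * L) / Real.log (d * L)) ^ ((2 : ℝ) / 3)) + C * Real.exp (2 * (d * L)))
    (hL : ∀ ε : ℝ, 0 < ε → ε < 1 → ∃ C X₀ : ℝ, 0 < C ∧ 1 < X₀ ∧ ∀ L : ℝ, X₀ ≤ d * L →
      Real.exp ((4 - 2 * κ) * (d * L) + (1 - ε) * c₁ *
        (2 * κ * (d * L) / Real.log (d * L)) ^ ((2 : ℝ) / 3)) ≤ N L + C * Real.exp (2 * (d * L))) :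
    Tendsto (fun L : ℝ => (Real.log (N L) - (d * (4 - 2 * κ)) * L) / Gs ((2 : ℝ) / 3) L) atTop
      (𝓝 (c₁ * (2 * κ * d) ^ ((2 : ℝ) / 3))) := by
  have hρ : (0 : ℝ) < 2 / 3 := by norm_num
  set A : ℝ := (2 * κ * d) ^ ((2 : ℝ) / 3) with hA
  have hA0 : 0 < A := Real.rpow_pos_of_pos (by positivity) _
  have hrat := ratio (k := 2 * κ) (by positivity) hd hρ
  rw [← hA] at hrat
  have hexp : 2 * d < d * (4 - 2 * κ) := by nlinarith
  have hGt := Gs_tendsto hρ
  -- the size of the second order term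
  have hsec : ∀ η : ℝ, 0 < η → ∀ᶠ L : ℝ in atTop, 1 < L ∧ 0 < Gs (2 / 3) L ∧
      (2 * κ * (d * L) / Real.log (d * L)) ^ ((2 : ℝ) / 3) ≤ (A + η) * Gs (2 / 3) L ∧
      (A - η) * Gs (2 / 3) L ≤ (2 * κ * (d * L) / Real.log (d * L)) ^ ((2 : ℝ) / 3) := by
    intro η hη
    have g1 := hrat.eventually (gt_mem_nhds (show A < A + η by linarith))
    have g2 := hrat.eventually (lt_mem_nhds (show A - η < A by linarith))
    filter_upwards [g1, g2, eventually_gt_atTop (1 : ℝ)] with L k1 k2 k3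
    have hG := Gs_pos (ρ := 2 / 3) k3
    rw [div_lt_iff₀ hG] at k1
    rw [lt_div_iff₀ hG] at k2
    exact ⟨k3, hG, k1.le, k2.le⟩
  have hX : ∀ X₀ : ℝ, ∀ᶠ L : ℝ in atTop, X₀ ≤ d * L := fun X₀ =>
    (tendsto_id.const_mul_atTop hd).eventually_ge_atTop X₀
  refine squeeze (e := d * (4 - 2 * κ)) (c := c₁ * A) hρ N ?_ ?_
  · intro ε hε
    obtain ⟨η, hη0, hη⟩ : ∃ η : ℝ, 0 < η ∧ (1 + η) * c₁ * (A + η) < c₁ * A + ε / 2 := by
      have hc : Tendsto (fun η : ℝ => (1 + η) * c₁ * (A + η)) (𝓝[>] 0)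
          (𝓝 ((1 + 0) * c₁ * (A + 0))) := by
        refine tendsto_nhdsWithin_of_tendsto_nhds ?_
        exact (((tendsto_id.const_add 1).mul_const c₁).mul (tendsto_id.const_add A))
      rw [add_zero, add_zero, one_mul] at hc
      obtain ⟨η, g1, g2⟩ := ((hc.eventually (gt_mem_nhds
        (show c₁ * A < c₁ * A + ε / 2 by linarith))).and self_mem_nhdsWithin).exists
      exact ⟨η, g2, g1⟩
    obtain ⟨C, X₀, hC, hX₀, h⟩ := hU η hη0
    filter_upwards [hsec η hη0, hX X₀, small_exp (C := C) hexp,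
      hGt.eventually_ge_atTop (2 * Real.log 2 / ε)] with L ⟨k1, k2, k3, _⟩ k4 k5 k6
    have h6 := h L k4
    have h7 : (1 + η) * c₁ * (2 * κ * (d * L) / Real.log (d * L)) ^ ((2 : ℝ) / 3) ≤
        (c₁ * A + ε / 2) * Gs (2 / 3) L := by
      calc (1 + η) * c₁ * (2 * κ * (d * L) / Real.log (d * L)) ^ ((2 : ℝ) / 3) ≤
          (1 + η) * c₁ * ((A + η) * Gs (2 / 3) L) :=
            mul_le_mul_of_nonneg_left k3 (by positivity)
        _ = (1 + η) * c₁ * (A + η) * Gs (2 / 3) L := by ring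
        _ ≤ _ := mul_le_mul_of_nonneg_right hη.le k2.le
    have h8 : 0 ≤ (c₁ * A + ε / 2) * Gs (2 / 3) L := by positivity
    have h9 : C * Real.exp (2 * (d * L)) ≤
        Real.exp (d * (4 - 2 * κ) * L + (c₁ * A + ε / 2) * Gs (2 / 3) L) := by
      have e1 : 2 * (d * L) = 2 * d * L := by ring
      rw [e1]
      refine k5.trans ?_
      have := Real.exp_pos (d * (4 - 2 * κ) * L)
      refine le_trans (by linarith : _ ≤ Real.exp (d * (4 - 2 * κ) * L)) ?_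
      exact Real.exp_le_exp.2 (by linarith)
    have h10 : Real.exp ((4 - 2 * κ) * (d * L) + (1 + η) * c₁ *
        (2 * κ * (d * L) / Real.log (d * L)) ^ ((2 : ℝ) / 3)) ≤
        Real.exp (d * (4 - 2 * κ) * L + (c₁ * A + ε / 2) * Gs (2 / 3) L) := by
      refine Real.exp_le_exp.2 ?_
      have e1 : (4 - 2 * κ) * (d * L) = d * (4 - 2 * κ) * L := by ring
      rw [e1]
      linarith
    have h11 : N L ≤ 2 * Real.exp (d * (4 - 2 * κ) * L + (c₁ * A + ε / 2) * Gs (2 / 3) L) := by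
      linarith
    refine h11.trans ?_
    rw [mul_comm, exp_mul_two]
    refine Real.exp_le_exp.2 ?_
    have h13 : Real.log 2 ≤ ε / 2 * Gs (2 / 3) L := by
      rw [div_le_iff₀ hε] at k6
      linarith
    nlinarith
  · intro ε hε
    obtain ⟨η, hη0, hη1, hη⟩ : ∃ η : ℝ, 0 < η ∧ η < 1 ∧ c₁ * A - ε / 2 < (1 - η) * c₁ * (A - η) := by
      have hc : Tendsto (fun η : ℝ => (1 - η) * c₁ * (A - η)) (𝓝[>] 0)
          (𝓝 ((1 - 0) * c₁ * (A - 0))) := by
        refine tendsto_nhdsWithin_of_tendsto_nhds ?_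
        exact (((tendsto_id.const_sub 1).mul_const c₁).mul (tendsto_id.const_sub A))
      rw [sub_zero, sub_zero, one_mul] at hc
      have h1 : ∀ᶠ η : ℝ in 𝓝[>] 0, η < 1 :=
        (tendsto_nhdsWithin_of_tendsto_nhds tendsto_id).eventually_lt_const one_pos
      obtain ⟨η, ⟨g1, g3⟩, g2⟩ := ((hc.eventually (lt_mem_nhds
        (show c₁ * A - ε / 2 < c₁ * A by linarith))).and h1 |>.and self_mem_nhdsWithin).exists
      exact ⟨η, g2, g3, g1⟩
    obtain ⟨C, X₀, hC, hX₀, h⟩ := hL η hη0 hη1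
    filter_upwards [hsec η hη0, hX X₀, small_exp (C := C) hexp,
      hGt.eventually_ge_atTop (2 * Real.log 2 / ε)] with L ⟨k1, k2, _, k3⟩ k4 k5 k6
    have h6 := h L k4
    have hpos : 0 ≤ (2 * κ * (d * L) / Real.log (d * L)) ^ ((2 : ℝ) / 3) := by
      refine Real.rpow_nonneg ?_ _
      have : 0 < Real.log (d * L) := Real.log_pos (by linarith)
      positivity
    have h7 : (c₁ * A - ε / 2) * Gs (2 / 3) L ≤
        (1 - η) * c₁ * (2 * κ * (d * L) / Real.log (d * L)) ^ ((2 : ℝ) / 3) := by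
      have hn : 0 ≤ (1 - η) * c₁ := mul_nonneg (by linarith) hc₁
      calc (c₁ * A - ε / 2) * Gs (2 / 3) L ≤ (1 - η) * c₁ * (A - η) * Gs (2 / 3) L :=
            mul_le_mul_of_nonneg_right hη.le k2.le
        _ = (1 - η) * c₁ * ((A - η) * Gs (2 / 3) L) := by ring
        _ ≤ _ := mul_le_mul_of_nonneg_left k3 hn
    have h8 : 0 ≤ (1 - η) * c₁ * (2 * κ * (d * L) / Real.log (d * L)) ^ ((2 : ℝ) / 3) :=
      mul_nonneg (mul_nonneg (by linarith) hc₁) hpos
    have h9 : C * Real.exp (2 * (d * L)) ≤ Real.exp ((4 - 2 * κ) * (d * L) + (1 - η) * c₁ *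
        (2 * κ * (d * L) / Real.log (d * L)) ^ ((2 : ℝ) / 3)) / 2 := by
      have e1 : 2 * (d * L) = 2 * d * L := by ring
      rw [e1]
      refine k5.trans ?_
      refine div_le_div_of_nonneg_right ?_ two_pos.le
      refine Real.exp_le_exp.2 ?_
      have e2 : (4 - 2 * κ) * (d * L) = d * (4 - 2 * κ) * L := by ring
      rw [e2]
      linarith
    have h10 : Real.exp ((4 - 2 * κ) * (d * L) + (1 - η) * c₁ *
        (2 * κ * (d * L) / Real.log (d * L)) ^ ((2 : ℝ) / 3)) / 2 ≤ N L := by linarith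
    refine le_trans ?_ h10
    rw [le_div_iff₀ two_pos]
    rw [exp_mul_two]
    refine Real.exp_le_exp.2 ?_
    have h13 : Real.log 2 ≤ ε / 2 * Gs (2 / 3) L := by
      rw [div_le_iff₀ hε] at k6
      linarith
    have e2 : (4 - 2 * κ) * (d * L) = d * (4 - 2 * κ) * L := by ring
    rw [e2]
    nlinarith

theorem fing (K : Type) [Field K] [NumberField K] (h1 : S_BASQ K) (h2 : S_UPG K) (h3 : S_LOG K)
    (h4 : S_ZARG K) : S_FING K := by
  intro q r α β G κ c hq hr' hα0 hβ0 hα hβ hG0 hG hκ0 hκ1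
  refine ⟨fun B => GV_finite α β G κ c B, ?_⟩
  have hc₁ : 0 ≤ Pool.Agent.N906.NT.cst 2 (q * r) := by
    unfold Pool.Agent.N906.NT.cst
    positivity
  have h := final_limit (c₁ := Pool.Agent.N906.NT.cst 2 (q * r)) hc₁ (fin_pos (K := K)) hκ0 hκ1
    (fun L => ((GV α β G κ c (Real.exp L)).ncard : ℝ))
    (fun ε hε => upper h1 h2 hq hr' G c hα0 hβ0 hα hβ hκ0 hκ1 hε)
    (fun ε hε hε1 => lower h1 h3 h4 hq hr' c hα0 hβ0 hα hβ hG0 hG hκ0 hκ1 hε hε1)
  have h5 := h.comp Real.tendsto_log_atTop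
  have e1 : Pool.Agent.N906.NT.cst 2 (q * r) * (2 * κ * (finrank ℚ K : ℝ)) ^ ((2 : ℝ) / 3) =
      (3 / 2) ^ ((5 : ℝ) / 3) * ((q : ℝ) * r) ^ ((1 : ℝ) / 3) *
      (2 * κ * finrank ℚ K) ^ ((2 : ℝ) / 3) := by
    congr 1
    unfold Pool.Agent.N906.NT.cst
    push_cast
    norm_num
  rw [e1] at h5
  refine h5.congr' ?_
  filter_upwards [eventually_gt_atTop (0 : ℝ)] with B hB
  simp only [Function.comp_apply, Gs]
  rw [Real.exp_log hB]

end Pool.Agent.N170.KG
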