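import Pool.Agent.N378.KH.Stm2

/-!
# Project KH (helper378), part LAW: product laws have bounded joint density

The comparison of the product measures is the argument of `Pool/Agent/N186/KHPIM.lean` (helper186).
(this part by helper170)
-/

set_option autoImplicit false

open MeasureTheory Finset
open scoped ENNReal

namespace Pool.Agent.N170.KH

open Pool.Agent.N378.KH

theorem pi_le {ι : Type} [Fintype ι] (ν lam : ι → Measure ℝ) [∀ i, SigmaFinite (ν i)]
    [∀ i, SigmaFinite (lam i)] (c : ℝ≥0∞) (hc0 : c ≠ 0) (hct : c ≠ ⊤)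
    (h : ∀ i, ∀ s, ν i s ≤ c * lam i s) (s : Set (ι → ℝ)) (hs : MeasurableSet s) :
    Measure.pi ν s ≤ c ^ Fintype.card ι * Measure.pi lam s := by
  have hN0 : c ^ Fintype.card ι ≠ 0 := pow_ne_zero _ hc0
  have hNt : c ^ Fintype.card ι ≠ ⊤ := ENNReal.pow_ne_top hct
  have key : ((c ^ Fintype.card ι)⁻¹ • (Measure.pi ν).toOuterMeasure)
      ≤ OuterMeasure.pi (fun i : ι => (lam i).toOuterMeasure) := by
    rw [OuterMeasure.le_pi]
    intro t _
    rw [smul_apply, smul_eq_mul]
    change (c ^ Fintype.card ι)⁻¹ * (Measure.pi ν) (Set.pi Set.univ t) ≤ ∏ i, lam i (t i)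
    rw [Measure.pi_pi]
    calc (c ^ Fintype.card ι)⁻¹ * ∏ i, ν i (t i)
        ≤ (c ^ Fintype.card ι)⁻¹ * ∏ i, (c * lam i (t i)) := by
          gcongr with i _
          exact h i (t i)
      _ = (c ^ Fintype.card ι)⁻¹ * c ^ Fintype.card ι * ∏ i, lam i (t i) := by
          rw [Finset.prod_mul_distrib, Finset.prod_const, Finset.card_univ, mul_assoc]
      _ = ∏ i, lam i (t i) := by rw [ENNReal.inv_mul_cancel hN0 hNt, one_mul]
  have h2 : (Measure.pi lam) s = OuterMeasure.pi (fun i : ι => (lam i).toOuterMeasure) s := by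
    rw [Measure.pi_def]
    exact toMeasure_apply _ _ hs
  have h3 := key s
  rw [← h2, smul_apply, smul_eq_mul] at h3
  change (c ^ Fintype.card ι)⁻¹ * (Measure.pi ν) s ≤ Measure.pi lam s at h3
  calc Measure.pi ν s = c ^ Fintype.card ι * ((c ^ Fintype.card ι)⁻¹ * Measure.pi ν s) := by
        rw [← mul_assoc, ENNReal.mul_inv_cancel hN0 hNt, one_mul]
    _ ≤ c ^ Fintype.card ι * Measure.pi lam s := by gcongr

theorem t_LAW : Pool.Agent.N378.KH.S_LAW := by
  intro n m D ν hD hν
  obtain ⟨hp, hle⟩ := hν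
  have hp' : ∀ i j, IsProbabilityMeasure (ν i j) := fun i j => hp (i, j)
  refine ⟨fun i => inferInstance, fun i => ?_⟩
  rw [Measure.le_iff]
  intro s hs
  have h := pi_le (ν i) (fun _ : Fin (m + 1) => volume.restrict (Set.Icc (-1 : ℝ) 1))
    (ENNReal.ofReal D) (by simpa using hD) ENNReal.ofReal_ne_top
    (fun j t => by
      refine (hle (i, j) t).trans ?_
      rw [Measure.smul_apply, smul_eq_mul]) s hs
  rw [Measure.smul_apply, smul_eq_mul, ENNReal.ofReal_pow hD.le]
  rw [Fintype.card_fin] at h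
  have h2 : (Measure.pi fun _ : Fin (m + 1) => (volume : Measure ℝ).restrict (Set.Icc (-1 : ℝ) 1)) =
      (volume : Measure (Fin (m + 1) → ℝ)).restrict (Set.Icc (-1 : Fin (m + 1) → ℝ) 1) := by
    have h3 := Measure.restrict_pi_pi (fun _ : Fin (m + 1) => (volume : Measure ℝ))
      (fun _ => Set.Icc (-1 : ℝ) 1)
    rw [← h3, volume_pi]
    congr 1
    exact Set.pi_univ_Icc _ _
  rw [h2] at h
  exact h

end Pool.Agent.N170.KH
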