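import Pool.Agent.N590.LQ.Stm2
import Pool.Agent.N590.LQ.V0
import Pool.Agent.N186.LQJ

/-!
# `κ(q) > 1` and a lower bound for the volume product of `B_q^n`
-/

set_option autoImplicit false

open MeasureTheory Filter Topology Set
open scoped ENNReal

namespace N590LQ

namespace P3Aux

theorem gam (s : ℝ) (h0 : 0 < s) (h1 : s < 1) :
    Real.Gamma (1 + s) * Real.Gamma (2 - s) = s * (1 - s) * (Real.pi / Real.sin (Real.pi * s)) := by
  have e1 : Real.Gamma (1 + s) = s * Real.Gamma s := by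
    rw [add_comm]; exact Real.Gamma_add_one h0.ne'
  have e2 : Real.Gamma (2 - s) = (1 - s) * Real.Gamma (1 - s) := by
    have := Real.Gamma_add_one (s := 1 - s) (by linarith)
    rw [← this]; congr 1; ring
  rw [e1, e2, ← Real.Gamma_mul_Gamma_one_sub]; ring

theorem gam_gt (s : ℝ) (h0 : 0 < s) (h1 : s < 1) :
    1 - s < Real.Gamma (1 + s) * Real.Gamma (2 - s) ∧
      s < Real.Gamma (1 + s) * Real.Gamma (2 - s) := by
  have hpi := Real.pi_pos
  have hs : 0 < Real.sin (Real.pi * s) :=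
    Real.sin_pos_of_pos_of_lt_pi (by positivity) (by nlinarith)
  have hs1 : Real.sin (Real.pi * s) < Real.pi * s := Real.sin_lt (by positivity)
  have hs2 : Real.sin (Real.pi * s) < Real.pi * (1 - s) := by
    have : Real.sin (Real.pi * s) = Real.sin (Real.pi * (1 - s)) := by
      rw [← Real.sin_pi_sub]; congr 1; ring
    rw [this]
    exact Real.sin_lt (mul_pos hpi (by linarith))
  rw [gam s h0 h1]
  constructor
  · rw [mul_div_assoc', lt_div_iff₀ hs]
    nlinarith [mul_pos (sub_pos.2 h1) (sub_pos.2 hs1)]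
  · rw [mul_div_assoc', lt_div_iff₀ hs]
    nlinarith [mul_pos h0 (sub_pos.2 hs2)]

theorem den_pos (s : ℝ) (h0 : 0 < s) (h1 : s < 1) : 0 < s ^ s * (1 - s) ^ (1 - s) :=
  mul_pos (Real.rpow_pos_of_pos h0 _) (Real.rpow_pos_of_pos (by linarith) _)

theorem den_le (s : ℝ) (h0 : 0 < s) (h1 : s < 1) :
    s ^ s * (1 - s) ^ (1 - s) ≤ max s (1 - s) := by
  rcases le_total s (1 - s) with h | h
  · refine le_trans ?_ (le_max_right _ _)
    calc s ^ s * (1 - s) ^ (1 - s) ≤ (1 - s) ^ s * (1 - s) ^ (1 - s) := by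
          gcongr
      _ = 1 - s := by
          rw [← Real.rpow_add (by linarith)]
          simp
  · refine le_trans ?_ (le_max_left _ _)
    have h2 : 0 < 1 - s := by linarith
    calc s ^ s * (1 - s) ^ (1 - s) ≤ s ^ s * s ^ (1 - s) := by
          gcongr
      _ = s := by
          rw [← Real.rpow_add h0]
          simp

theorem kappa_gt (q : ℝ) (hq : 1 < q) : 1 < kappa q := by
  have q0 : 0 < q := by linarith
  have h0 : 0 < 1 / q := by positivity
  have h1 : 1 / q < 1 := by rw [div_lt_one q0]; exact hq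
  unfold kappa
  rw [one_lt_div (den_pos _ h0 h1)]
  obtain ⟨ha, hb⟩ := gam_gt _ h0 h1
  exact lt_of_le_of_lt (den_le _ h0 h1) (max_lt hb ha)

theorem body (q : ℝ) (hq : 1 < q) (n : ℕ) : IsSymBody (lqBall q n) := by
  have q0 : 0 < q := by linarith
  have hcont : Continuous (fun x : Fin n → ℝ => ∑ i, |x i| ^ q) := by
    refine continuous_finsetSum _ fun i _ => ?_
    exact ((continuous_apply i).abs).rpow_const (fun x => Or.inr q0.le)
  refine ⟨?_, ?_, ?_, ?_⟩
  · refine IsCompact.of_isClosed_subset (isCompact_Icc (a := fun _ : Fin n => (-1 : ℝ))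
      (b := fun _ => (1 : ℝ))) (isClosed_le hcont continuous_const) ?_
    intro x hx
    have h1 : ∀ i, |x i| ≤ 1 := by
      intro i
      have h2 : |x i| ^ q ≤ 1 := le_trans (Finset.single_le_sum
        (f := fun i => |x i| ^ q) (fun i _ => Real.rpow_nonneg (abs_nonneg _) _)
        (Finset.mem_univ i)) hx
      by_contra hc
      push Not at hc
      exact absurd h2 (not_le.2 (Real.one_lt_rpow hc q0))
    exact ⟨fun i => (abs_le.1 (h1 i)).1, fun i => (abs_le.1 (h1 i)).2⟩
  · have hc : ConvexOn ℝ univ (fun x : Fin n → ℝ => ∑ i, |x i| ^ q) := by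
      refine ⟨convex_univ, ?_⟩
      intro x _ y _ a b ha hb hab
      simp only [smul_eq_mul, Finset.mul_sum, ← Finset.sum_add_distrib]
      refine Finset.sum_le_sum fun i _ => ?_
      have h1 : |(a • x + b • y) i| ≤ a * |x i| + b * |y i| := by
        simp only [Pi.add_apply, Pi.smul_apply, smul_eq_mul]
        calc |a * x i + b * y i| ≤ |a * x i| + |b * y i| := abs_add_le _ _
          _ = a * |x i| + b * |y i| := by rw [abs_mul, abs_mul, abs_of_nonneg ha, abs_of_nonneg hb]
      calc |(a • x + b • y) i| ^ q ≤ (a * |x i| + b * |y i|) ^ q := by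
            exact Real.rpow_le_rpow (abs_nonneg _) h1 q0.le
        _ ≤ a * |x i| ^ q + b * |y i| ^ q :=
            (convexOn_rpow hq.le).2 (mem_Ici.2 (abs_nonneg (x i))) (mem_Ici.2 (abs_nonneg (y i)))
              ha hb hab
    have := hc.convex_le 1
    simpa [lqBall] using this
  · refine ⟨0, ?_⟩
    rw [mem_interior]
    refine ⟨{x | ∑ i, |x i| ^ q < 1}, fun x (hx : ∑ i, |x i| ^ q < 1) => show ∑ i, |x i| ^ q ≤ 1 from hx.le,
      isOpen_lt hcont continuous_const, ?_⟩
    show ∑ i : Fin n, |(0 : Fin n → ℝ) i| ^ q < 1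
    simp [Real.zero_rpow q0.ne']
  · intro x hx
    show ∑ i, |(-x) i| ^ q ≤ 1
    have hx' : ∑ i, |x i| ^ q ≤ 1 := hx
    simpa using hx'

theorem amgm (s : ℝ) (h0 : 0 < s) (h1 : s < 1) (x : ℝ) (hx : x ∈ Ioo (0 : ℝ) 1) :
    x ^ s * (1 - x) ^ (1 - s) ≤ s ^ s * (1 - s) ^ (1 - s) := by
  have h2 : 0 < 1 - s := by linarith
  have hx1 : 0 < 1 - x := by linarith [hx.2]
  have h := Real.geom_mean_le_arith_mean2_weighted h0.le h2.le (div_pos hx.1 h0).le
    (div_pos hx1 h2).le (by ring)
  rw [mul_div_cancel₀ _ h0.ne', mul_div_cancel₀ _ h2.ne', Real.div_rpow hx.1.le h0.le,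
    Real.div_rpow hx1.le h2.le, div_mul_div_comm, div_le_iff₀ (den_pos s h0 h1)] at h
  linarith

theorem gam_le (s : ℝ) (h0 : 0 < s) (h1 : s < 1) (n : ℕ) :
    Real.Gamma (n * s + 1) * Real.Gamma (n * (1 - s) + 1) ≤
      (n + 1).factorial * (s ^ s * (1 - s) ^ (1 - s)) ^ n := by
  have h2 : 0 < 1 - s := by linarith
  have ha : 0 < n * s + 1 := by positivity
  have hb : 0 < n * (1 - s) + 1 := by positivity
  obtain ⟨hi, hv⟩ := J186.beta_real ha hb
  have hG : Real.Gamma ((n * s + 1) + (n * (1 - s) + 1)) = (n + 1).factorial := by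
    rw [← Real.Gamma_nat_eq_factorial]; congr 1; push_cast; ring
  have hle : ProbabilityTheory.beta (n * s + 1) (n * (1 - s) + 1) ≤
      (s ^ s * (1 - s) ^ (1 - s)) ^ n := by
    rw [← hv]
    calc ∫ x in Ioo (0 : ℝ) 1, x ^ (n * s + 1 - 1) * (1 - x) ^ (n * (1 - s) + 1 - 1)
        ≤ ∫ x in Ioo (0 : ℝ) 1, (s ^ s * (1 - s) ^ (1 - s)) ^ n := by
          refine setIntegral_mono_on hi ?_ measurableSet_Ioo ?_
          · exact integrableOn_const (by simp)
          · intro x hx
            have hx1 : 0 < 1 - x := by linarith [hx.2]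
            have e : x ^ (n * s + 1 - 1) * (1 - x) ^ (n * (1 - s) + 1 - 1) =
                (x ^ s * (1 - x) ^ (1 - s)) ^ n := by
              rw [add_sub_cancel_right, add_sub_cancel_right, mul_pow, mul_comm (n : ℝ) s,
                mul_comm (n : ℝ) (1 - s), Real.rpow_mul_natCast hx.1.le,
                Real.rpow_mul_natCast hx1.le]
            rw [e]
            have := amgm s h0 h1 x hx
            have h3 : 0 ≤ x ^ s * (1 - x) ^ (1 - s) :=
              mul_nonneg (Real.rpow_nonneg hx.1.le _) (Real.rpow_nonneg hx1.le _)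
            gcongr
      _ = (s ^ s * (1 - s) ^ (1 - s)) ^ n := by simp
  unfold ProbabilityTheory.beta at hle
  rw [hG, div_le_iff₀ (by positivity)] at hle
  linarith

theorem vol_ge (q : ℝ) (hq : 1 < q) (n : ℕ) (hn : 1 ≤ n) :
    ENNReal.ofReal ((4 * kappa q) ^ n / (n + 1)) ≤
      (n.factorial : ℝ≥0∞) * (volume (lqBall q n) * volume (polar (lqBall q n))) := by
  have q0 : 0 < q := by linarith
  have hq1 : 0 < q - 1 := by linarith
  have h0 : 0 < 1 / q := by positivity
  have h1 : 1 / q < 1 := by rw [div_lt_one q0]; exact hq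
  have hvol : volume (lqBall q n) * volume (polar (lqBall q n)) = _ :=
    VPL.S_lp_product_590.lp_product (n := n) (by omega) q hq
  rw [hvol, ← ENNReal.ofReal_natCast, ← ENNReal.ofReal_mul (by positivity)]
  refine ENNReal.ofReal_le_ofReal ?_
  set s := 1 / q with hs
  have hqs : q = 1 / s := by rw [hs, one_div_one_div]
  have h2 : 0 < 1 - s := by linarith
  have e1 : (2 * Real.Gamma (s + 1)) * (2 / q * Real.Gamma ((q - 1) / q)) * (q - 1) =
      4 * (Real.Gamma (1 + s) * Real.Gamma (2 - s)) := by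
    have e2 : Real.Gamma (2 - s) = (1 - s) * Real.Gamma (1 - s) := by
      have := Real.Gamma_add_one (s := 1 - s) (by linarith)
      rw [← this]; congr 1; ring
    have e3 : (q - 1) / q = 1 - s := by rw [hs]; field_simp
    have e4 : 2 / q * (q - 1) = 2 * (1 - s) := by rw [hs]; field_simp
    rw [e2, e3, add_comm s 1]
    calc 2 * Real.Gamma (1 + s) * (2 / q * Real.Gamma (1 - s)) * (q - 1)
        = 2 * Real.Gamma (1 + s) * Real.Gamma (1 - s) * (2 / q * (q - 1)) := by ring
      _ = _ := by rw [e4]; ring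
  have e5 : (n : ℝ) / q = n * s := by rw [hs]; ring
  have e6 : (n : ℝ) * (q - 1) / q = n * (1 - s) := by rw [hs]; field_simp
  rw [← mul_pow, e1, e5, e6]
  have hD := den_pos s h0 h1
  have hNpos : 0 < Real.Gamma (1 + s) * Real.Gamma (2 - s) :=
    mul_pos (Real.Gamma_pos_of_pos (by linarith)) (Real.Gamma_pos_of_pos (by linarith))
  have hk : kappa q = Real.Gamma (1 + s) * Real.Gamma (2 - s) /
    (s ^ s * (1 - s) ^ (1 - s)) := rfl
  have hg := gam_le s h0 h1 n
  have hgp : 0 < Real.Gamma (n * s + 1) * Real.Gamma (n * (1 - s) + 1) :=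
    mul_pos (Real.Gamma_pos_of_pos (by positivity)) (Real.Gamma_pos_of_pos (by positivity))
  rw [hk]
  generalize Real.Gamma (1 + s) * Real.Gamma (2 - s) = N at hNpos ⊢
  have e7 : (4 * (N / (s ^ s * (1 - s) ^ (1 - s)))) ^ n / (n + 1) =
      n.factorial * ((4 * N) ^ n / ((n + 1).factorial * (s ^ s * (1 - s) ^ (1 - s)) ^ n)) := by
    rw [Nat.factorial_succ, mul_pow, div_pow, mul_pow]
    push_cast
    have : (n.factorial : ℝ) ≠ 0 := by positivity
    field_simp
    rw [mul_pow]
  rw [e7]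
  gcongr

end P3Aux

/-- `κ(q) > 1` and a lower bound for the volume product of `B_q^n` -/
theorem P3 : S_P3 := fun q hq =>
  ⟨P3Aux.kappa_gt q hq, fun n hn => ⟨P3Aux.body q hq n, P3Aux.vol_ge q hq n hn⟩⟩

end N590LQ
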