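import Pool.Agent.N585.PT.Defs

/-!
# PT/3: the transformed paths are trees with decompositions
-/

set_option autoImplicit false

namespace Pool.Agent.N170.PTtree

open Pool.Agent.N585.PT

section

variable {n : ℕ} (hn : 0 < n) {A : Finset ℕ} {t : ℕ → ℕ}

/-- the vertex `i` -/
def c (i : ℕ) : Fin n := ⟨min i (n - 1), by omega⟩

theorem c_val {i : ℕ} (h : i < n) : (c hn i).1 = i := by
  show min i (n - 1) = i
  omega

theorem c_fin (i : Fin n) : c hn i.1 = i := Fin.ext (c_val hn i.2)

theorem adj_succ {i : ℕ} (hi : i + 1 < n) (hA : i ∉ A) :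
    (trG n A t).Adj (c hn i) (c hn (i + 1)) := by
  unfold trG
  rw [SimpleGraph.fromRel_adj]
  have h1 := c_val hn (show i < n by omega)
  have h2 := c_val hn hi
  refine ⟨fun h => ?_, Or.inl (Or.inl ⟨by rw [h1, h2], by rw [h1]; exact hA⟩)⟩
  have := congrArg Fin.val h
  rw [h1, h2] at this
  omega

theorem adj_link (hok : Ok n A t) {a : ℕ} (ha : a ∈ A) :
    (trG n A t).Adj (c hn (a - t a)) (c hn (a + 1 + t a)) := by
  obtain ⟨h1, h2, h3, -⟩ := hok a ha
  unfold trG
  rw [SimpleGraph.fromRel_adj]
  have k1 := c_val hn (show a - t a < n by omega)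
  have k2 := c_val hn h3
  refine ⟨fun h => ?_, Or.inl (Or.inr ⟨a, ha, by rw [k1]; omega, by rw [k2]⟩)⟩
  have := congrArg Fin.val h
  rw [k1, k2] at this
  omega

/-! ### Connectedness -/

theorem reach_int {a b : ℕ} (hab : a ≤ b) (hb : b < n) (hA : ∀ j, a ≤ j → j < b → j ∉ A) :
    (trG n A t).Reachable (c hn a) (c hn b) := by
  induction b, hab using Nat.le_induction with
  | base => exact SimpleGraph.Reachable.refl _
  | succ b hab ih =>
    refine (ih (by omega) fun j h1 h2 => hA j h1 (by omega)).trans ?_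
    exact (adj_succ hn (by omega) (hA b hab (by omega))).reachable

theorem reach (hok : Ok n A t) (i : ℕ) (hi : i < n) :
    (trG n A t).Reachable (c hn 0) (c hn i) := by
  induction i using Nat.strong_induction_on with
  | _ i ih =>
    rcases i with _ | i
    · exact SimpleGraph.Reachable.refl _
    · by_cases hA : i ∈ A
      · obtain ⟨h1, h2, h3, -⟩ := hok i hA
        have k1 := ih (i - t i) (by omega) (by omega)
        have k2 := (adj_link hn hok hA).reachable
        have k3 : (trG n A t).Reachable (c hn (i + 1)) (c hn (i + 1 + t i)) := by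
          refine reach_int hn (by omega) h3 fun j g1 g2 g3 => ?_
          have := ((hok j g3).2.2.2 i hA (by omega)).1
          omega
        exact (k1.trans k2).trans k3.symm
      · exact (ih i (by omega) (by omega)).trans (adj_succ hn hi hA).reachable

/-! ### The number of edges -/

open Classical in
/-- the edge number `m` -/
noncomputable def edg (A : Finset ℕ) (t : ℕ → ℕ) (m : ℕ) : Sym2 (Fin n) :=
  if m ∈ A then s(c hn (m - t m), c hn (m + 1 + t m)) else s(c hn m, c hn (m + 1))

theorem edge_mem_aux {i j : Fin n} (h : (j.1 = i.1 + 1 ∧ i.1 ∉ A) ∨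
    ∃ a ∈ A, i.1 + t a = a ∧ j.1 = a + 1 + t a) :
    ∃ m, m < n - 1 ∧ edg hn A t m = s(i, j) := by
  classical
  rcases h with ⟨h1, h2⟩ | ⟨a, ha, h1, h2⟩
  · refine ⟨i.1, by omega, ?_⟩
    unfold edg
    rw [if_neg h2, ← h1, c_fin, c_fin]
  · refine ⟨a, by omega, ?_⟩
    unfold edg
    have h3 : a - t a = i.1 := by omega
    rw [if_pos ha, ← h2, h3, c_fin, c_fin]

theorem edge_mem (e : Sym2 (Fin n)) (he : e ∈ (trG n A t).edgeSet) :
    ∃ m, m < n - 1 ∧ edg hn A t m = e := by
  induction e using Sym2.ind with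
  | _ i j =>
    rw [SimpleGraph.mem_edgeSet] at he
    unfold trG at he
    rw [SimpleGraph.fromRel_adj] at he
    rcases he.2 with h | h
    · exact edge_mem_aux hn h
    · obtain ⟨m, h1, h2⟩ := edge_mem_aux hn h
      exact ⟨m, h1, by rw [h2, Sym2.eq_swap]⟩

include hn in
theorem card_edges : Nat.card (trG n A t).edgeSet ≤ n - 1 := by
  classical
  have h : (trG n A t).edgeSet ⊆ ((Finset.range (n - 1)).image (edg hn A t) : Finset _) := by
    intro e he
    obtain ⟨m, h1, h2⟩ := edge_mem hn e he
    exact Finset.mem_coe.2 (Finset.mem_image.2 ⟨m, Finset.mem_range.2 h1, h2⟩)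
  have h1 := Set.ncard_le_ncard h (Finset.finite_toSet _)
  rw [Set.ncard_coe_finset] at h1
  have h2 : ((Finset.range (n - 1)).image (edg hn A t)).card ≤ n - 1 := by
    refine Finset.card_image_le.trans ?_
    rw [Finset.card_range]
  exact h1.trans h2

include hn in
theorem isTree (hok : Ok n A t) : (trG n A t).IsTree := by
  have hc : (trG n A t).Connected := by
    rw [SimpleGraph.connected_iff_exists_forall_reachable]
    refine ⟨c hn 0, fun i => ?_⟩
    rw [← c_fin hn i]
    exact reach hn hok i.1 i.2
  rw [SimpleGraph.isTree_iff_connected_and_card]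
  refine ⟨hc, ?_⟩
  have h1 := hc.card_vert_le_card_edgeSet_add_one
  have h2 := card_edges (A := A) (t := t) hn
  have h3 : Nat.card (Fin n) = n := Nat.card_fin n
  omega

/-! ### The decomposition -/

/-- intervals -/
def sg (s l : ℕ) : List (Fin n) := (List.range' s l).map (c hn)

theorem sg_length (s l : ℕ) : (sg hn s l).length = l := by
  unfold sg
  rw [List.length_map, List.length_range']

theorem sg_get {s l i : ℕ} (h : i < l) : (sg hn s l)[i]? = some (c hn (s + i)) := by
  unfold sg
  rw [List.getElem?_map, List.getElem?_range' h]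
  simp

theorem sg_rev {s l i : ℕ} (h : i < l) :
    (sg hn s l).reverse[i]? = some (c hn (s + (l - 1 - i))) := by
  rw [List.getElem?_reverse (by rw [sg_length]; exact h), sg_length, sg_get hn (by omega)]

theorem sg_chain {s l : ℕ} (hl : s + l ≤ n) (hA : ∀ i, s ≤ i → i + 1 < s + l → i ∉ A) :
    (sg hn s l).IsChain (trG n A t).Adj := by
  rw [List.isChain_iff_getElem]
  intro i hi
  rw [sg_length] at hi
  have h1 : (sg hn s l)[i]'(by rw [sg_length]; omega) = c hn (s + i) := by
    have := sg_get hn (s := s) (show i < l by omega)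
    rw [List.getElem?_eq_getElem (by rw [sg_length]; omega)] at this
    exact Option.some.inj this
  have h2 : (sg hn s l)[i + 1]'(by rw [sg_length]; omega) = c hn (s + i + 1) := by
    have := sg_get hn (s := s) (show i + 1 < l by omega)
    rw [List.getElem?_eq_getElem (by rw [sg_length]; omega)] at this
    exact Option.some.inj this
  rw [h1, h2]
  exact adj_succ hn (by omega) (hA _ (by omega) (by omega))

theorem dec_aux (hok : Ok n A t) (k : ℕ) : ∀ s, s < n → n - s = k →
    (∀ a ∈ A, s ≤ a → s + t a ≤ a) →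
    ∃ (e : ℕ) (L' : List (List (Fin n))), s ≤ e ∧ e < n ∧ (e ∈ A ∨ e = n - 1) ∧
      (sg hn s (e + 1 - s) :: L').flatten = sg hn s (n - s) ∧
      (∀ Q ∈ sg hn s (e + 1 - s) :: L', Q ≠ [] ∧ Q.IsChain (trG n A t).Adj) ∧
      (sg hn s (e + 1 - s) :: L').IsChain (Link (trG n A t)) := by
  classical
  induction k using Nat.strong_induction_on with
  | _ k ih =>
    intro s hs hk hsA
    have hex : ∃ e, s ≤ e ∧ (e ∈ A ∨ e = n - 1) := ⟨n - 1, by omega, Or.inr rfl⟩
    obtain ⟨e, ⟨he1, he2⟩, hmin⟩ : ∃ e, (s ≤ e ∧ (e ∈ A ∨ e = n - 1)) ∧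
        ∀ m, m < e → ¬ (s ≤ m ∧ (m ∈ A ∨ m = n - 1)) :=
      ⟨Nat.find hex, Nat.find_spec hex, fun m hm => Nat.find_min hex hm⟩
    have hen : e ≤ n - 1 := by
      by_contra hcon
      exact hmin (n - 1) (by omega) ⟨by omega, Or.inr rfl⟩
    have hA : ∀ i, s ≤ i → i + 1 < s + (e + 1 - s) → i ∉ A := fun i h1 h2 h3 =>
      hmin i (by omega) ⟨h1, Or.inl h3⟩
    have hQ : sg hn s (e + 1 - s) ≠ [] ∧
        (sg hn s (e + 1 - s)).IsChain (trG n A t).Adj := by
      refine ⟨fun h => ?_, sg_chain hn (by omega) hA⟩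
      have := congrArg List.length h
      rw [sg_length] at this
      simp at this
      omega
    by_cases heA : e ∈ A
    · obtain ⟨g1, g2, g3, g4⟩ := hok e heA
      obtain ⟨e', L', f1, f2, f3, f4, f5, f6⟩ := ih (n - (e + 1)) (by omega) (e + 1) (by omega) rfl
        (fun a ha hle => ((hok a ha).2.2.2 e heA (by omega)).2)
      refine ⟨e, sg hn (e + 1) (e' + 1 - (e + 1)) :: L', he1, by omega, Or.inl heA, ?_, ?_, ?_⟩
      · rw [List.flatten_cons, f4]
        unfold sg
        rw [← List.map_append]
        congr 1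
        have h1 : e + 1 = s + (e + 1 - s) := by omega
        have h2 : n - s = (e + 1 - s) + (n - (e + 1)) := by omega
        rw [h2, ← List.range'_append_1]
        congr 2
      · intro Q hQ'
        rcases List.mem_cons.1 hQ' with rfl | h
        · exact hQ
        · exact f5 Q h
      · rw [List.isChain_cons]
        refine ⟨?_, f6⟩
        intro Q hQ'
        rw [List.head?_cons, Option.mem_def] at hQ'
        have hQ2 : sg hn (e + 1) (e' + 1 - (e + 1)) = Q := Option.some.inj hQ'
        rw [← hQ2]
        have h1 := hsA e heA he1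
        have h2 : e + 1 + t e ≤ e' := by
          rcases f3 with f3 | f3
          · exact ((hok e' f3).2.2.2 e heA (by omega)).1
          · omega
        refine ⟨t e, c hn (e - t e), c hn (e + 1 + t e), ?_, ?_, adj_link hn hok heA⟩
        · rw [sg_rev hn (by omega)]
          congr 2
          omega
        · rw [sg_get hn (by omega)]
    · have hee : e = n - 1 := he2.resolve_left heA
      refine ⟨e, [], he1, by omega, Or.inr hee, ?_, ?_, ?_⟩
      · rw [List.flatten_cons, List.flatten_nil, List.append_nil]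
        congr 1
        omega
      · intro Q hQ'
        rw [List.mem_singleton] at hQ'
        rw [hQ']
        exact hQ
      · exact List.isChain_singleton _

include hn in
theorem dec (hok : Ok n A t) : Dec (trG n A t) := by
  obtain ⟨e, L', -, -, -, h1, h2, h3⟩ := dec_aux hn hok n 0 hn rfl
    (fun a ha _ => by
      have := (hok a ha).2.1
      omega)
  refine ⟨_, ⟨h2, h3, ?_⟩, ?_⟩
  · rw [h1]
    unfold sg
    refine List.Nodup.map_on ?_ List.nodup_range'
    intro i hi j hj hij
    rw [List.mem_range'_1] at hi hj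
    have := congrArg Fin.val hij
    rwa [c_val hn (by omega), c_val hn (by omega)] at this
  · intro x
    rw [h1]
    unfold sg
    rw [List.mem_map]
    exact ⟨x.1, List.mem_range'_1.2 ⟨by omega, by have := x.2; omega⟩, c_fin hn x⟩

end

theorem stmTree : StmTree := fun _ _ _ hn hok => ⟨isTree hn hok, dec hn hok⟩

end Pool.Agent.N170.PTtree
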