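import Pool.Agent.N804.PV.Def

set_option autoImplicit false

/-! # Project PV, PV/I: the comparison of two mean squares (Mathlib only part) -/

namespace Pool.Agent.N170.PVI

open Filter Topology Set MeasureTheory
open Pool.Agent.N804.PV

lemma DT_meas (T : ℝ) : Measurable (DT T) := by
  have hpsi : Measurable Chebyshev.psi := Chebyshev.psi_mono.measurable
  unfold DT
  refine Measurable.mul (by fun_prop) ?_
  refine Measurable.sub (Measurable.sub ?_ ?_) (by fun_prop)
  · exact hpsi.comp (by fun_prop)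
  · exact hpsi.comp (by fun_prop)

lemma DS_meas (T ε : ℝ) : Measurable (DS T ε) := by
  have h1 : Measurable fun p : ℝ × ℝ => gs ε p.2 * DT T (p.1 + p.2) := by
    refine Measurable.mul ?_ ((DT_meas T).comp (by fun_prop))
    unfold gs
    fun_prop
  exact (h1.stronglyMeasurable.integral_prod_right' (ν := volume)).measurable

lemma DT_bd {T : ℝ} (hT : 0 < T) (Y : ℝ) : ∃ A : ℝ, ∀ y ∈ Ioc (0 : ℝ) Y, |DT T y| ≤ A := by
  refine ⟨Chebyshev.psi (Real.exp Y * (1 + 1 / T)) + Chebyshev.psi (Real.exp Y) +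
    Real.exp Y / T, fun y hy => ?_⟩
  have e1 : Real.exp y ≤ Real.exp Y := Real.exp_le_exp.2 hy.2
  have e0 := Real.exp_pos y
  have hT1 : 0 < 1 + 1 / T := by positivity
  have h1 : Chebyshev.psi (Real.exp y * (1 + 1 / T)) ≤ Chebyshev.psi (Real.exp Y * (1 + 1 / T)) :=
    Chebyshev.psi_mono (by gcongr)
  have h2 : Chebyshev.psi (Real.exp y) ≤ Chebyshev.psi (Real.exp Y) := Chebyshev.psi_mono e1
  have h3 : Real.exp y / T ≤ Real.exp Y / T := by gcongr
  have p1 := Chebyshev.psi_nonneg (Real.exp y * (1 + 1 / T))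
  have p2 := Chebyshev.psi_nonneg (Real.exp y)
  have p3 : 0 ≤ Real.exp y / T := by positivity
  unfold DT
  rw [abs_mul, abs_of_pos (Real.exp_pos _)]
  have h4 : Real.exp (-(y / 2)) ≤ 1 := by
    rw [Real.exp_le_one_iff]
    linarith [hy.1]
  have h5 : |Chebyshev.psi (Real.exp y * (1 + 1 / T)) - Chebyshev.psi (Real.exp y) -
      Real.exp y / T| ≤ Chebyshev.psi (Real.exp Y * (1 + 1 / T)) + Chebyshev.psi (Real.exp Y) +
    Real.exp Y / T := by
    rw [abs_le]
    constructor <;> linarith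
  calc _ ≤ 1 * |Chebyshev.psi (Real.exp y * (1 + 1 / T)) - Chebyshev.psi (Real.exp y) -
      Real.exp y / T| := by gcongr
    _ ≤ _ := by rw [one_mul]; exact h5

/-- a bounded measurable function is integrable on a bounded interval -/
lemma int_of_bd {f : ℝ → ℝ} (hf : Measurable f) {a Y A : ℝ} (h : ∀ y ∈ Ioc a Y, |f y| ≤ A) :
    IntegrableOn f (Ioc a Y) := by
  refine Measure.integrableOn_of_bounded (M := A) (by simp) hf.aestronglyMeasurable ?_
  filter_upwards [ae_restrict_mem measurableSet_Ioc] with y hy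
  simpa using h y hy

/-- the comparison of two mean squares -/
lemma core {D S Z u : ℝ → ℝ} (hD : Measurable D) (hS : Measurable S) (hZ : Measurable Z)
    (hu : Continuous u) {a Y M e1 e2 AD AZ θ : ℝ} (ha : 0 ≤ a) (haY : a ≤ Y) (hM : 0 ≤ M)
    (hθ : 0 < θ)
    (hu1 : ∀ y, y ≤ a → u y = 0) (hu2 : ∀ y, Y < y → u y = 0) (huM : ∀ y, |u y| ≤ M)
    (hAD : ∀ y ∈ Ioc (0 : ℝ) Y, |D y| ≤ AD) (hAZ : ∀ y ∈ Ioc (0 : ℝ) Y, |Z y| ≤ AZ)
    (hAS : ∃ AS : ℝ, ∀ y ∈ Ioc (0 : ℝ) Y, |S y| ≤ AS)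
    (h1 : ∫ y in (0 : ℝ)..Y, (D y - S y) ^ 2 ≤ e1)
    (h2 : ∀ y ∈ Ioc a Y, |S y + Z y| ≤ e2) :
    |(∫ y, u y * D y ^ 2) - ∫ y, u y * Z y ^ 2| ≤
      (1 + 1 / θ) * M * (2 * e1 + 2 * (Y - a) * e2 ^ 2) + θ * ∫ y, |u y| * Z y ^ 2 := by
  obtain ⟨AS, hAS⟩ := hAS
  have hsub : Ioc a Y ⊆ Ioc 0 Y := fun y hy => ⟨lt_of_le_of_lt ha hy.1, hy.2⟩
  have um : Measurable u := hu.measurable
  -- reduction to the interval
  have red : ∀ f : ℝ → ℝ, (∀ y, u y = 0 → f y = 0) → ∫ y, f y = ∫ y in Ioc a Y, f y := by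
    intro f hf
    refine (setIntegral_eq_integral_of_forall_compl_eq_zero fun y hy => hf y ?_).symm
    rw [mem_Ioc, not_and_or, not_lt, not_le] at hy
    rcases hy with h | h
    · exact hu1 y h
    · exact hu2 y h
  rw [red (fun y => u y * D y ^ 2) (fun y h => by simp [h]),
    red (fun y => u y * Z y ^ 2) (fun y h => by simp [h]),
    red (fun y => |u y| * Z y ^ 2) (fun y h => by simp [h])]
  have bsq : ∀ {x A : ℝ}, |x| ≤ A → |x ^ 2| ≤ A ^ 2 := by
    intro x A h
    rw [abs_pow]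
    exact pow_le_pow_left₀ (abs_nonneg _) h 2
  have iD : IntegrableOn (fun y => u y * D y ^ 2) (Ioc a Y) := by
    refine int_of_bd (by fun_prop) (A := M * AD ^ 2) fun y hy => ?_
    rw [abs_mul]
    exact mul_le_mul (huM y) (bsq (hAD y (hsub hy))) (abs_nonneg _) hM
  have iZ : IntegrableOn (fun y => u y * Z y ^ 2) (Ioc a Y) := by
    refine int_of_bd (by fun_prop) (A := M * AZ ^ 2) fun y hy => ?_
    rw [abs_mul]
    exact mul_le_mul (huM y) (bsq (hAZ y (hsub hy))) (abs_nonneg _) hM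
  have iZ' : IntegrableOn (fun y => |u y| * Z y ^ 2) (Ioc a Y) := by
    have hm : Measurable fun y => |u y| * Z y ^ 2 := (hu.abs.measurable).mul (hZ.pow_const 2)
    refine int_of_bd hm (A := M * AZ ^ 2) fun y hy => ?_
    rw [abs_mul, abs_abs]
    exact mul_le_mul (huM y) (bsq (hAZ y (hsub hy))) (abs_nonneg _) hM
  have bDS : ∀ y ∈ Ioc (0 : ℝ) Y, |(D y - S y) ^ 2| ≤ (AD + AS) ^ 2 := by
    intro y hy
    refine bsq ((abs_sub _ _).trans ?_)
    exact add_le_add (hAD y hy) (hAS y hy)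
  have iDS0 : IntegrableOn (fun y => (D y - S y) ^ 2) (Ioc 0 Y) :=
    int_of_bd ((hD.sub hS).pow_const 2) bDS
  have iDS : IntegrableOn (fun y => (D y - S y) ^ 2) (Ioc a Y) := iDS0.mono_set hsub
  have hDS : ∫ y in Ioc a Y, (D y - S y) ^ 2 ≤ e1 := by
    refine le_trans ?_ h1
    rw [intervalIntegral.integral_of_le (ha.trans haY)]
    exact setIntegral_mono_set iDS0 (ae_of_all _ fun y => sq_nonneg _) hsub.eventuallyLE
  rw [← integral_sub iD iZ]
  have iR : IntegrableOn (fun y => (1 + 1 / θ) * M * (2 * (D y - S y) ^ 2 + 2 * e2 ^ 2) +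
      θ * (|u y| * Z y ^ 2)) (Ioc a Y) := by
    refine Integrable.add (Integrable.const_mul (Integrable.add (iDS.const_mul 2) ?_) _)
      (iZ'.const_mul _)
    exact integrableOn_const (by simp)
  have iA : IntegrableOn (fun y => |u y * D y ^ 2 - u y * Z y ^ 2|) (Ioc a Y) := by
    have := Integrable.abs (Integrable.sub iD iZ)
    exact this
  have iDS2 : Integrable (fun y => 2 * (D y - S y) ^ 2 + 2 * e2 ^ 2) (volume.restrict (Ioc a Y)) :=
    Integrable.add (iDS.const_mul 2) (integrableOn_const (by simp))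
  have I1 : ∫ y in Ioc a Y, ((1 + 1 / θ) * M * (2 * (D y - S y) ^ 2 + 2 * e2 ^ 2) +
      θ * (|u y| * Z y ^ 2)) = (1 + 1 / θ) * M * (2 * (∫ y in Ioc a Y, (D y - S y) ^ 2) +
      2 * (Y - a) * e2 ^ 2) + θ * ∫ y in Ioc a Y, |u y| * Z y ^ 2 := by
    have k1 : ∫ y in Ioc a Y, (2 * (D y - S y) ^ 2 + 2 * e2 ^ 2) =
        2 * (∫ y in Ioc a Y, (D y - S y) ^ 2) + 2 * (Y - a) * e2 ^ 2 := by
      rw [integral_add (iDS.const_mul 2) (integrableOn_const (by simp)), integral_const_mul,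
        setIntegral_const]
      have : volume.real (Ioc a Y) = Y - a := by simp [haY]
      rw [this, smul_eq_mul]
      ring
    rw [integral_add (iDS2.const_mul _) (iZ'.const_mul _), integral_const_mul, integral_const_mul,
      k1]
  have pw : ∀ y ∈ Ioc a Y, |u y * D y ^ 2 - u y * Z y ^ 2| ≤
      (1 + 1 / θ) * M * (2 * (D y - S y) ^ 2 + 2 * e2 ^ 2) + θ * (|u y| * Z y ^ 2) := by
    intro y hy
    set E := D y + Z y with hE
    have q1 : E ^ 2 ≤ 2 * (D y - S y) ^ 2 + 2 * e2 ^ 2 := by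
      have a1 : (S y + Z y) ^ 2 ≤ e2 ^ 2 := by
        rw [← sq_abs]
        exact pow_le_pow_left₀ (abs_nonneg _) (h2 y hy) 2
      nlinarith [sq_nonneg ((D y - S y) - (S y + Z y))]
    have q2 : |D y ^ 2 - Z y ^ 2| ≤ (1 + 1 / θ) * E ^ 2 + θ * Z y ^ 2 := by
      have a1 : D y ^ 2 - Z y ^ 2 = E ^ 2 - 2 * (E * Z y) := by rw [hE]; ring
      have a2 : |2 * (E * Z y)| ≤ 1 / θ * E ^ 2 + θ * Z y ^ 2 := by
        rw [abs_le]
        have b1 : 1 / θ * E ^ 2 + θ * Z y ^ 2 = 1 / θ * (E ^ 2 + (θ * Z y) ^ 2) := by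
          field_simp
        have b2 : 2 * (E * Z y) = 1 / θ * (2 * E * (θ * Z y)) := by
          field_simp
        have b3 : 0 < 1 / θ := by positivity
        rw [b1, b2, ← mul_neg]
        constructor
        · refine mul_le_mul_of_nonneg_left ?_ b3.le
          nlinarith [sq_nonneg (E + θ * Z y)]
        · refine mul_le_mul_of_nonneg_left ?_ b3.le
          nlinarith [sq_nonneg (E - θ * Z y)]
      rw [a1]
      refine (abs_sub _ _).trans ?_
      rw [abs_of_nonneg (sq_nonneg E)]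
      linarith
    have hθ' : 0 < 1 + 1 / θ := by positivity
    rw [← mul_sub, abs_mul]
    calc |u y| * |D y ^ 2 - Z y ^ 2| ≤ |u y| * ((1 + 1 / θ) * E ^ 2 + θ * Z y ^ 2) := by gcongr
      _ = (1 + 1 / θ) * |u y| * E ^ 2 + θ * (|u y| * Z y ^ 2) := by ring
      _ ≤ (1 + 1 / θ) * M * (2 * (D y - S y) ^ 2 + 2 * e2 ^ 2) + θ * (|u y| * Z y ^ 2) := by
        gcongr
        exact huM y
  calc |∫ y in Ioc a Y, (u y * D y ^ 2 - u y * Z y ^ 2)|
      ≤ ∫ y in Ioc a Y, |u y * D y ^ 2 - u y * Z y ^ 2| := abs_integral_le_integral_abs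
    _ ≤ ∫ y in Ioc a Y, ((1 + 1 / θ) * M * (2 * (D y - S y) ^ 2 + 2 * e2 ^ 2) +
      θ * (|u y| * Z y ^ 2)) :=
        setIntegral_mono_on iA iR measurableSet_Ioc pw
    _ = (1 + 1 / θ) * M * (2 * (∫ y in Ioc a Y, (D y - S y) ^ 2) + 2 * (Y - a) * e2 ^ 2) +
      θ * ∫ y in Ioc a Y, |u y| * Z y ^ 2 := by
        exact I1
    _ ≤ _ := by
        have hθ' : 0 < 1 + 1 / θ := by positivity
        gcongr

/-- the error tends to zero -/
lemma err_tendsto {A c K C : ℝ} (hc : 1 / 2 < c) (hA : 0 ≤ A) (hK : 0 ≤ K) (κ : ℝ) :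
    Tendsto (fun T : ℝ => κ * (T / Real.log T ^ 2 * (2 * (1 / T ^ 2) +
      2 * (A * Real.log T) * (C * Real.exp (-(c * Real.log T)) *
        (1 + K * Real.log T) ^ 2) ^ 2))) atTop (𝓝 0) := by
  rw [show (0 : ℝ) = κ * 0 by ring]
  refine Tendsto.const_mul κ ?_
  have key : Tendsto (fun L : ℝ => Real.exp L / L ^ 2 * (2 * (1 / Real.exp L ^ 2) +
      2 * (A * L) * (C * Real.exp (-(c * L)) * (1 + K * L) ^ 2) ^ 2)) atTop (𝓝 0) := by
    set d := 2 * c - 1 with hd
    have hd0 : 0 < d := by rw [hd]; linarith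
    have g1 : Tendsto (fun L : ℝ => 2 * Real.exp (-L)) atTop (𝓝 0) := by
      have := Real.tendsto_exp_neg_atTop_nhds_zero.const_mul 2
      simpa using this
    have g2 : Tendsto (fun L : ℝ => 2 * A * C ^ 2 * (1 + K) ^ 4 / d ^ 3 *
        ((d * L) ^ 3 * Real.exp (-(d * L)))) atTop (𝓝 0) := by
      have h1 : Tendsto (fun L : ℝ => d * L) atTop atTop := tendsto_id.const_mul_atTop hd0
      have h2 := ((Real.tendsto_pow_mul_exp_neg_atTop_nhds_zero 3).comp h1).const_mul
        (2 * A * C ^ 2 * (1 + K) ^ 4 / d ^ 3)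
      simpa using h2
    have g3 := g1.add g2
    rw [add_zero] at g3
    refine squeeze_zero' ?_ ?_ g3
    · filter_upwards [eventually_ge_atTop 1] with L hL
      positivity
    · filter_upwards [eventually_ge_atTop 1] with L hL
      have hL0 : 0 < L := by linarith
      have hL2 : 1 ≤ L ^ 2 := one_le_pow₀ hL
      have e1 : Real.exp L / L ^ 2 * (2 * (1 / Real.exp L ^ 2)) ≤ 2 * Real.exp (-L) := by
        have : Real.exp L / L ^ 2 * (2 * (1 / Real.exp L ^ 2)) = 2 * Real.exp (-L) / L ^ 2 := by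
          rw [Real.exp_neg]
          field_simp
        rw [this]
        exact div_le_self (by positivity) hL2
      have e2 : Real.exp L / L ^ 2 * (2 * (A * L) * (C * Real.exp (-(c * L)) *
          (1 + K * L) ^ 2) ^ 2) ≤ 2 * A * C ^ 2 * (1 + K) ^ 4 / d ^ 3 *
          ((d * L) ^ 3 * Real.exp (-(d * L))) := by
        have f1 : Real.exp (-(d * L)) = Real.exp L * Real.exp (-(c * L)) ^ 2 := by
          rw [← Real.exp_nat_mul, ← Real.exp_add]
          congr 1
          rw [hd]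
          push_cast
          ring
        have f2 : (1 + K * L) ^ 4 ≤ ((1 + K) * L) ^ 4 := by
          have : 1 + K * L ≤ (1 + K) * L := by nlinarith
          gcongr
        have f3 : Real.exp L / L ^ 2 * (2 * (A * L) * (C * Real.exp (-(c * L)) *
          (1 + K * L) ^ 2) ^ 2) = 2 * A * C ^ 2 * Real.exp (-(d * L)) / L * (1 + K * L) ^ 4 := by
          rw [f1]
          field_simp
        have f4 : 2 * A * C ^ 2 * (1 + K) ^ 4 / d ^ 3 * ((d * L) ^ 3 * Real.exp (-(d * L))) =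
            2 * A * C ^ 2 * Real.exp (-(d * L)) / L * ((1 + K) * L) ^ 4 := by
          field_simp
        rw [f3, f4]
        gcongr
      rw [mul_add]
      exact add_le_add e1 e2
  have := key.comp Real.tendsto_log_atTop
  refine this.congr' ?_
  filter_upwards [eventually_gt_atTop 0] with T hT
  simp only [Function.comp_apply, Real.exp_log hT]

end Pool.Agent.N170.PVI
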