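import Pool.Agent.N804.PV.Stm
import Pool.Agent.N170.PV_IC

set_option autoImplicit false

/-! # Project PV, PV/I: primes and zeros, assembly (for helper804) -/

namespace Pool.Agent.N170.PVI

open Filter Topology Set MeasureTheory
open H370 (Zf mult)
open Pool.Agent.N804 (SC CT dsum XX mg CT_decp XX_pos)
open Pool.Agent.N804.PV

lemma ZN_cont (T ε N : ℝ) : Continuous (ZN T ε N) := by
  unfold ZN hT
  refine continuous_const.mul (continuous_finsetSum _ fun s _ => continuous_const.mul ?_)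
  refine Complex.continuous_re.comp ?_
  fun_prop

lemma AT_mono {T : ℝ} (hT : 1 < T) {f g : ℝ → ℝ} (h : ∀ d, f d ≤ g d) : AT T f ≤ AT T g := by
  have hX := XX_pos hT
  have hpi := Real.pi_pos
  unfold AT
  refine div_le_div_of_nonneg_right ?_ (by positivity)
  refine Finset.sum_le_sum fun s _ => Finset.sum_le_sum fun s' _ => ?_
  refine mul_le_mul_of_nonneg_left (h _) ?_
  have : 0 ≤ ph (max s.im s'.im / T) := by
    unfold ph
    positivity
  positivity

lemma AT_cmul (T c : ℝ) (f : ℝ → ℝ) : AT T (fun d => c * f d) = c * AT T f := by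
  unfold AT
  rw [← mul_div_assoc, Finset.mul_sum]
  congr 1
  refine Finset.sum_congr rfl fun s _ => ?_
  rw [Finset.mul_sum]
  exact Finset.sum_congr rfl fun s' _ => by ring

lemma AT_sc_bd (hk : S_AKB) {W : ℝ → ℝ} (HW : SC W) : ∃ C T0 : ℝ, 0 ≤ C ∧ ∀ T : ℝ, T0 ≤ T →
    AT T (sc W T) ≤ C := by
  obtain ⟨B, T0, hB, h⟩ := hk
  obtain ⟨A, hA0, hA⟩ := CT_decp HW 2
  refine ⟨A * B, max T0 2, by positivity, fun T hT => ?_⟩
  have h1 : (1 : ℝ) < T := by linarith [le_max_right T0 2, hT]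
  have h2 : AT T (kr T) ≤ B := h T ((le_max_left _ _).trans hT)
  have h3 : AT T (sc W T) ≤ AT T (fun d => A * kr T d) := by
    refine AT_mono h1 fun d => ?_
    unfold sc kr
    set u := d * Real.log T / (2 * Real.pi) with hu
    have e1 := hA u
    have e2 : 1 + u ^ 2 ≤ (1 + |u|) ^ 2 := by
      have := abs_nonneg u
      nlinarith [sq_abs u]
    have e3 : 0 < 1 + u ^ 2 := by positivity
    rw [mul_one_div, le_div_iff₀ e3]
    calc CT W u * (1 + u ^ 2) ≤ |CT W u| * (1 + u ^ 2) := by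
          gcongr
          exact le_abs_self _
      _ ≤ |CT W u| * (1 + |u|) ^ 2 := by gcongr
      _ = (1 + |u|) ^ 2 * |CT W u| := mul_comm _ _
      _ ≤ A := e1
  rw [AT_cmul] at h3
  exact h3.trans (by gcongr)

/-- passage to the limit in the mean square of the finite sums -/
lemma lim_sq {T ε : ℝ} {Z : ℝ → ℝ} {B : ℝ} (hT : 1 < T)
    (hZ : ∀ y : ℝ, Tendsto (fun N : ℕ => ZN T ε N y) atTop (𝓝 (Z y)))
    (hB : ∀ (N : ℕ) (y : ℝ), |ZN T ε N y| ≤ B * Real.exp (|y| / 2)) {w : ℝ → ℝ} (hw : SC w) :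
    Tendsto (fun N : ℕ => ∫ y : ℝ, w (y / Real.log T) * ZN T ε N y ^ 2) atTop
      (𝓝 (∫ y : ℝ, w (y / Real.log T) * Z y ^ 2)) := by
  have hL : 0 < Real.log T := Real.log_pos hT
  have cs : HasCompactSupport fun y : ℝ => |w (y / Real.log T)| * (B * Real.exp (|y| / 2)) ^ 2 := by
    have h1 : HasCompactSupport fun y : ℝ => w (y / Real.log T) := by
      have := hw.cs.comp_homeomorph (Homeomorph.mulRight₀ (Real.log T)⁻¹ (inv_ne_zero hL.ne'))
      simpa [Function.comp_def, div_eq_mul_inv] using this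
    have h2 : HasCompactSupport fun y : ℝ => |w (y / Real.log T)| := h1.norm
    exact h2.mul_right
  have hc := hw.cont
  refine tendsto_integral_of_dominated_convergence
    (fun y : ℝ => |w (y / Real.log T)| * (B * Real.exp (|y| / 2)) ^ 2) ?_ ?_ ?_ ?_
  · intro N
    have := ZN_cont T ε N
    exact Continuous.aestronglyMeasurable (by fun_prop)
  · exact Continuous.integrable_of_hasCompactSupport (by fun_prop) cs
  · intro N
    refine ae_of_all _ fun y => ?_
    rw [Real.norm_eq_abs, abs_mul, abs_pow]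
    gcongr
    exact hB N y
  · refine ae_of_all _ fun y => ?_
    exact ((hZ y).pow 2).const_mul _

theorem main (h1 : S_PV1) (h2 : S_PV2) (h3 : S_PV3) (hk : S_AKB) : S_PVI := by
  intro RH w hw ⟨A1, hA1, hwA⟩
  -- the support and the majorant
  obtain ⟨R, hR1, hR⟩ : ∃ R : ℝ, A1 < R ∧ ∀ α : ℝ, R ≤ |α| → w α = 0 := by
    obtain ⟨R0, hR0⟩ := hw.cs.isCompact.isBounded.subset_closedBall (0 : ℝ)
    refine ⟨max (R0 + 1) (A1 + 1), by linarith [le_max_right (R0 + 1) (A1 + 1)], fun α hα => ?_⟩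
    by_contra hne
    have h4 : α ∈ tsupport w := subset_tsupport w hne
    have h5 := hR0 h4
    rw [Metric.mem_closedBall, dist_zero_right, Real.norm_eq_abs] at h5
    linarith [le_max_left (R0 + 1) (A1 + 1)]
  have hR0 : 0 < R := by linarith
  obtain ⟨M, hM0, hM⟩ : ∃ M : ℝ, 0 ≤ M ∧ ∀ α : ℝ, |w α| ≤ M := by
    obtain ⟨M, hM⟩ := hw.cs.exists_bound_of_continuous hw.cont
    exact ⟨M, (norm_nonneg _).trans (hM 0), fun α => hM α⟩
  set b : ContDiffBump (0 : ℝ) := ⟨R, R + 1, hR0, by linarith⟩ with hb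
  have HW : SC (fun α => M * b α) :=
    ⟨contDiff_const.mul b.contDiff, b.hasCompactSupport.mul_left⟩
  have hWw : ∀ α : ℝ, |w α| ≤ M * b α := by
    intro α
    rcases le_or_gt R |α| with h | h
    · rw [hR α h, abs_zero]
      exact mul_nonneg hM0 b.nonneg
    · have : b α = 1 := by
        refine b.one_of_mem_closedBall ?_
        rw [Metric.mem_closedBall, dist_zero_right, Real.norm_eq_abs]
        exact h.le
      rw [this, mul_one]
      exact hM α
  obtain ⟨C1, hC1, H1⟩ := h1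
  obtain ⟨K0, T2, H2⟩ := h2 R hR0
  obtain ⟨C3, T3, hC3, H3⟩ := AT_sc_bd hk HW
  obtain ⟨T4, H4⟩ := h3 RH _ HW 1 one_pos
  set K : ℕ := max 3 K0 with hK
  rw [Metric.tendsto_atTop]
  intro η hη
  obtain ⟨T5, H5⟩ := h3 RH w hw (η / 4) (by positivity)
  set θ : ℝ := η / (3 * (C3 + 1) + 1) with hθ
  have hθ0 : 0 < θ := by positivity
  have hθ3 : θ * (C3 + 1) ≤ η / 3 := by
    rw [hθ, div_mul_eq_mul_div, div_le_div_iff₀ (by positivity) (by positivity)]
    nlinarith
  -- the error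
  have herr := err_tendsto (A := R - A1) (c := A1) (K := K) (C := C1) hA1 (by linarith)
    (Nat.cast_nonneg K) ((1 + 1 / θ) * M)
  have hev := herr.eventually (gt_mem_nhds (show (0 : ℝ) < η / 3 by positivity))
  obtain ⟨T6, H6⟩ := eventually_atTop.1 hev
  refine ⟨max (max (max 2 T2) (max T3 T4)) (max T5 T6), fun T hT => ?_⟩
  have g2 : 2 ≤ T := (le_max_left _ _).trans ((le_max_left _ _).trans ((le_max_left _ _).trans hT))
  have gT2 : T2 ≤ T :=
    (le_max_right _ _).trans ((le_max_left _ _).trans ((le_max_left _ _).trans hT))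
  have gT3 : T3 ≤ T :=
    (le_max_left _ _).trans ((le_max_right _ _).trans ((le_max_left _ _).trans hT))
  have gT4 : T4 ≤ T :=
    (le_max_right _ _).trans ((le_max_right _ _).trans ((le_max_left _ _).trans hT))
  have gT5 : T5 ≤ T := (le_max_left _ _).trans ((le_max_right _ _).trans hT)
  have gT6 : T6 ≤ T := (le_max_right _ _).trans ((le_max_right _ _).trans hT)
  have hT1 : 1 < T := by linarith
  have hT0 : 0 < T := by linarith
  set L := Real.log T with hL
  have hL0 : 0 < L := Real.log_pos hT1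
  set ε : ℝ := 1 / T ^ K with hε
  have hε0 : 0 < ε := by positivity
  have hε1 : ε ≤ 1 := by
    rw [hε, div_le_one (by positivity)]
    exact one_le_pow₀ hT1.le
  have hεK : ε ≤ 1 / T ^ K0 := by
    rw [hε]
    exact one_div_le_one_div_of_le (by positivity) (pow_le_pow_right₀ hT1.le (le_max_right _ _))
  have hε3 : ε ≤ 1 / T ^ 3 := by
    rw [hε]
    exact one_div_le_one_div_of_le (by positivity) (pow_le_pow_right₀ hT1.le (le_max_left _ _))
  have hlog : Real.log (1 / ε) = K * L := by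
    rw [hε, one_div_one_div, Real.log_pow]
  obtain ⟨Z, B, Zlim, ZB, ZS⟩ := H1 T g2 ε hε0 hε1
  have hZm : Measurable Z := measurable_of_tendsto_metrizable
    (fun N : ℕ => (ZN_cont T ε N).measurable) (tendsto_pi_nhds.2 Zlim)
  have hZB : ∀ y : ℝ, |Z y| ≤ B * Real.exp (|y| / 2) := fun y =>
    le_of_tendsto (Zlim y).abs (Eventually.of_forall fun N => ZB N y)
  have hB0 : 0 ≤ B := by
    have := (abs_nonneg _).trans (hZB 0)
    simpa using this
  -- limits
  have key : ∀ (v : ℝ → ℝ), SC v → ∀ e : ℝ, (∀ ε' : ℝ, 0 < ε' → ε' ≤ 1 / T ^ 3 → ∀ N : ℝ,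
      T ^ 2 ≤ N → |T / L ^ 2 * (∫ y : ℝ, v (y / L) * ZN T ε' N y ^ 2) - AT T (sc v T)| ≤ e) →
      |T / L ^ 2 * (∫ y : ℝ, v (y / L) * Z y ^ 2) - AT T (sc v T)| ≤ e := by
    intro v hv e h
    have l1 := (((lim_sq hT1 Zlim ZB hv).const_mul (T / L ^ 2)).sub_const (AT T (sc v T))).abs
    refine le_of_tendsto l1 ?_
    obtain ⟨N0, hN0⟩ := exists_nat_ge (T ^ 2)
    filter_upwards [eventually_ge_atTop N0] with N hN
    refine h ε hε0 hε3 N (hN0.trans ?_)
    exact_mod_cast hN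
  have k1 := key w hw (η / 4) (H5 T gT5)
  have k2 := key _ HW 1 (H4 T gT4)
  have k3 := H3 T gT3
  have hTL : 0 < T / L ^ 2 := by positivity
  have cW : Continuous fun y : ℝ => w (y / L) := by
    have := hw.cont
    fun_prop
  -- the mean square of `Z` against `|w|`
  have csc : ∀ v : ℝ → ℝ, SC v → Integrable fun y : ℝ => v (y / L) * Z y ^ 2 := by
    intro v hv
    have hvc := hv.cont
    have h1 : HasCompactSupport fun y : ℝ => v (y / L) := by
      have := hv.cs.comp_homeomorph (Homeomorph.mulRight₀ L⁻¹ (inv_ne_zero hL0.ne'))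
      simpa [Function.comp_def, div_eq_mul_inv] using this
    have h2 : Integrable fun y : ℝ => |v (y / L)| * (B * Real.exp (|y| / 2)) ^ 2 :=
      Continuous.integrable_of_hasCompactSupport (by fun_prop)
        (HasCompactSupport.mul_right (HasCompactSupport.norm h1))
    refine h2.mono' ?_ (ae_of_all _ fun y => ?_)
    · exact ((by fun_prop : Continuous fun y : ℝ => v (y / L)).measurable.mul
        (hZm.pow_const 2)).aestronglyMeasurable
    · rw [Real.norm_eq_abs, abs_mul, abs_pow]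
      gcongr
      exact hZB y
  have m1 : T / L ^ 2 * ∫ y : ℝ, |w (y / L)| * Z y ^ 2 ≤ C3 + 1 := by
    have i2 := csc _ HW
    have a1 : ∫ y : ℝ, |w (y / L)| * Z y ^ 2 ≤ ∫ y : ℝ, M * b (y / L) * Z y ^ 2 := by
      refine integral_mono_of_nonneg (ae_of_all _ fun y => by positivity) i2
        (ae_of_all _ fun y => ?_)
      have := hWw (y / L)
      show |w (y / L)| * Z y ^ 2 ≤ M * b (y / L) * Z y ^ 2
      gcongr
    have a2 : T / L ^ 2 * ∫ y : ℝ, |w (y / L)| * Z y ^ 2 ≤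
        T / L ^ 2 * ∫ y : ℝ, M * b (y / L) * Z y ^ 2 := by gcongr
    have a3 := (abs_le.1 k2).2
    linarith
  -- the comparison
  have AZ : ∀ y ∈ Ioc (0 : ℝ) (R * L), |Z y| ≤ B * Real.exp (R * L / 2) := by
    intro y hy
    refine (hZB y).trans ?_
    rw [abs_of_pos hy.1]
    have := hy.2
    gcongr
  obtain ⟨AD, hAD⟩ := DT_bd hT0 (R * L)
  have hS : ∃ AS : ℝ, ∀ y ∈ Ioc (0 : ℝ) (R * L), |DS T ε y| ≤ AS := by
    refine ⟨C1 * (1 + K * L) ^ 2 + B * Real.exp (R * L / 2), fun y hy => ?_⟩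
    have a1 := ZS y hy.1.le
    rw [hlog] at a1
    have a2 : C1 * Real.exp (-y) * (1 + K * L) ^ 2 ≤ C1 * (1 + K * L) ^ 2 := by
      have : Real.exp (-y) ≤ 1 := by
        rw [Real.exp_le_one_iff]
        linarith [hy.1]
      have : C1 * Real.exp (-y) ≤ C1 * 1 := by gcongr
      rw [mul_one] at this
      gcongr
    have a3 : |DS T ε y| ≤ |DS T ε y + Z y| + |Z y| := by
      have := abs_sub (DS T ε y + Z y) (Z y)
      rwa [add_sub_cancel_right] at this
    linarith [AZ y hy]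
  have cmp := core (D := DT T) (S := DS T ε) (Z := Z) (u := fun y => w (y / L)) (a := A1 * L)
    (Y := R * L) (M := M) (e1 := 1 / T ^ 2) (e2 := C1 * Real.exp (-(A1 * L)) * (1 + K * L) ^ 2)
    (AD := AD) (AZ := B * Real.exp (R * L / 2)) (θ := θ)
    (DT_meas T) (DS_meas T ε) hZm cW (by positivity) (by gcongr) hM0 hθ0
    (fun y hy => hwA _ (by rw [div_le_iff₀ hL0]; exact hy))
    (fun y hy => hR _ (by
      refine le_trans ?_ (le_abs_self _)
      rw [le_div_iff₀ hL0]
      exact hy.le))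
    (fun y => hM _) hAD AZ hS (H2 T gT2 ε hε0 hεK) (fun y hy => by
      have hy0 : 0 ≤ y := by
        have : 0 ≤ A1 * L := by positivity
        linarith [hy.1]
      refine (ZS y hy0).trans ?_
      rw [hlog]
      have : Real.exp (-y) ≤ Real.exp (-(A1 * L)) := Real.exp_le_exp.2 (by linarith [hy.1])
      gcongr)
  have fin := H6 T gT6
  rw [Real.dist_eq, sub_zero]
  have b1 : T / L ^ 2 * |(∫ y, w (y / L) * DT T y ^ 2) - ∫ y, w (y / L) * Z y ^ 2| ≤
      η / 3 + η / 3 := by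
    calc _ ≤ T / L ^ 2 * ((1 + 1 / θ) * M * (2 * (1 / T ^ 2) + 2 * (R * L - A1 * L) *
        (C1 * Real.exp (-(A1 * L)) * (1 + K * L) ^ 2) ^ 2) +
          θ * ∫ y, |w (y / L)| * Z y ^ 2) := by gcongr
      _ = (1 + 1 / θ) * M * (T / L ^ 2 * (2 * (1 / T ^ 2) + 2 * ((R - A1) * L) *
        (C1 * Real.exp (-(A1 * L)) * (1 + K * L) ^ 2) ^ 2)) +
          θ * (T / L ^ 2 * ∫ y, |w (y / L)| * Z y ^ 2) := by ring
      _ ≤ η / 3 + θ * (C3 + 1) := by
        refine add_le_add fin.le ?_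
        gcongr
      _ ≤ η / 3 + η / 3 := by linarith
  have b2 : T / L ^ 2 * (∫ y, w (y / L) * DT T y ^ 2) - AT T (sc w T) =
      T / L ^ 2 * ((∫ y, w (y / L) * DT T y ^ 2) - ∫ y, w (y / L) * Z y ^ 2) +
        (T / L ^ 2 * (∫ y, w (y / L) * Z y ^ 2) - AT T (sc w T)) := by ring
  rw [b2]
  refine lt_of_le_of_lt (abs_add_le _ _) ?_
  rw [abs_mul, abs_of_pos hTL]
  linarith

end Pool.Agent.N170.PVI
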