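import Pool.Agent.N894.WF.Defs

/-!
# Project WF (helper894), leaf B0: words of length one (helper170)
-/

set_option autoImplicit false

namespace Pool.Agent.N170.WF

open N894.WF

theorem t_B0 : N894.WF.LeafB0 := by
  classical
  intro V Γ _ hR F K
  choose Q gQ fQ φ hφ using fun v => hR v (F.preimage (Sigma.mk v) sigma_mk_injective.injOn) K
  let V0 : Type := {v // v ∈ F.image Sigma.fst}
  let ψ : (v : V) → Γ v → ((w : V0) → Q w.1) := fun v a w =>
    if h : v = w.1 then φ w.1 (h ▸ a) else 1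
  have hψ1 : ∀ (v : V) (hv : v ∈ F.image Sigma.fst) (a : Γ v), ψ v a ⟨v, hv⟩ = φ v a := by
    intro v hv a
    show (if h : v = v then φ v (h ▸ a) else 1) = φ v a
    rw [dif_pos rfl]
  have hψ2 : ∀ (v u : V) (hv : v ∈ F.image Sigma.fst) (a : Γ u), u ≠ v → ψ u a ⟨v, hv⟩ = 1 := by
    intro v u hv a h
    show (if h : u = v then φ v (h ▸ a) else 1) = 1
    rw [dif_neg h]
  refine ⟨(w : V0) → Q w.1, inferInstance, inferInstance, ψ, ?_⟩
  intro l hl0 hl1 hl _ T hT hE hmem
  obtain ⟨x, rfl⟩ : ∃ x, l = [x] := by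
    rcases l with _ | ⟨x, _ | ⟨y, l⟩⟩
    · exact absurd rfl hl0
    · exact ⟨x, rfl⟩
    · simp at hl1
  obtain ⟨v, a⟩ := x
  obtain ⟨haF, ha1⟩ := hl _ (List.mem_singleton.2 rfl)
  have hv : v ∈ F.image Sigma.fst := Finset.mem_image.2 ⟨⟨v, a⟩, haF, rfl⟩
  have hev : ev ψ [(⟨v, a⟩ : Σ v, Γ v)] = ψ v a := by
    unfold ev
    simp
  rw [hev] at hmem
  let p : ((w : V0) → Q w.1) →* Q v := Pi.evalMonoidHom (fun w : V0 => Q w.1) ⟨v, hv⟩
  have hp : ∀ f : (w : V0) → Q w.1, p f = f ⟨v, hv⟩ := fun f => rfl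
  let T' : Finset (Q v) := (T.image p).erase 1
  have h1 : p (ψ v a) ∈ Subgroup.closure (T' : Set (Q v)) := by
    have h2 : Subgroup.closure (T : Set ((w : V0) → Q w.1)) ≤
        (Subgroup.closure (T' : Set (Q v))).comap p := by
      rw [Subgroup.closure_le]
      intro t ht
      show p t ∈ Subgroup.closure (T' : Set (Q v))
      by_cases h3 : p t = 1
      · rw [h3]
        exact one_mem _
      · refine Subgroup.subset_closure ?_
        exact Finset.mem_coe.2 (Finset.mem_erase.2 ⟨h3, Finset.mem_image_of_mem p ht⟩)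
    exact h2 hmem
  rw [hp, hψ1] at h1
  refine hφ v T' ?_ ?_ a (Finset.mem_preimage.2 haF) ha1 h1
  · exact (Finset.card_le_card (Finset.erase_subset _ _)).trans (Finset.card_image_le.trans hT)
  · intro t' ht'
    obtain ⟨h1', h2'⟩ := Finset.mem_erase.1 ht'
    obtain ⟨t, ht, rfl⟩ := Finset.mem_image.1 h2'
    obtain ⟨x, u, b, c, hb, hc, rfl⟩ := hE t ht
    by_cases hu : u = v
    · subst hu
      refine ⟨p x, b, Finset.mem_preimage.2 hb, c, Finset.mem_preimage.2 hc, ?_⟩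
      rw [map_mul, map_mul, map_mul, map_mul, map_inv, map_inv, hp (ψ u b), hp (ψ u c),
        hp (ψ u (b * c)), hψ1, hψ1, hψ1]
    · exfalso
      apply h1'
      rw [map_mul, map_mul, map_mul, map_mul, map_inv, map_inv, hp (ψ u b), hp (ψ u c),
        hp (ψ u (b * c)), hψ2 v u hv _ hu, hψ2 v u hv _ hu, hψ2 v u hv _ hu]
      simp

end Pool.Agent.N170.WF
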